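import Mathlib

/-!
# Smooth fans and their homogeneity degree: definitions
-/

open Set Filter Topology

namespace Pool.Agent.MP2a55c9

/-- `A` is an arc in `X` with end points `x` and `y`: the range of a continuous injection `f` of
`[0,1]` into `X` with `f 0 = x` and `f 1 = y` (as `X` is a metric space, `f` is then a homeomorphism
of `[0,1]` onto `A`). -/
def IsArc {X : Type*} [MetricSpace X] (A : Set X) (x y : X) : Prop :=
  ∃ f : unitInterval → X, Continuous f ∧ Function.Injective f ∧ f 0 = x ∧ f 1 = y ∧ range f = A

/-- A subcontinuum: a nonempty compact connected subset. -/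
def IsSubcontinuum {X : Type*} [MetricSpace X] (A : Set X) : Prop :=
  IsCompact A ∧ IsConnected A

/-- Hereditary unicoherence: whenever a subcontinuum `K` is the union of two subcontinua `A` and `B`,
the intersection `A ∩ B` is connected. -/
def HereditarilyUnicoherent (X : Type*) [MetricSpace X] : Prop :=
  ∀ K A B : Set X, IsSubcontinuum K → IsSubcontinuum A → IsSubcontinuum B → K = A ∪ B →
    IsConnected (A ∩ B)

/-- A dendroid: an arcwise connected, hereditarily unicoherent continuum (nonempty compact connected
metric space). -/
structure IsDendroid (X : Type*) [MetricSpace X] : Prop where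
  compact : CompactSpace X
  connected : ConnectedSpace X
  arcwise : ∀ x y : X, x ≠ y → ∃ A : Set X, IsArc A x y
  unicoherent : HereditarilyUnicoherent X

/-- `t` is a ramification point: a common end point of three arcs that pairwise meet only in `t`. -/
def IsRamificationPoint {X : Type*} [MetricSpace X] (t : X) : Prop :=
  ∃ (A B C : Set X) (a b c : X), IsArc A t a ∧ IsArc B t b ∧ IsArc C t c ∧
    A ∩ B = {t} ∧ A ∩ C = {t} ∧ B ∩ C = {t}

/-- A fan with top `t`: a dendroid whose only ramification point is `t`. -/
structure IsFanWithTop (X : Type*) [MetricSpace X] (t : X) : Prop where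
  dendroid : IsDendroid X
  ramification : IsRamificationPoint t
  unique : ∀ s : X, IsRamificationPoint s → s = t

/-- `A` is the arc `[x,y]`, or the point `{x}` if `x = y`. -/
def IsArcOrPoint {X : Type*} [MetricSpace X] (A : Set X) (x y : X) : Prop :=
  IsArc A x y ∨ (x = y ∧ A = {x})

/-- A smooth fan: a fan with top `t` such that whenever `x n → y`, the arcs `[t, x n]` converge to
`[t, y]` in the Hausdorff metric. -/
def IsSmoothFan (X : Type*) [MetricSpace X] : Prop :=
  ∃ t : X, IsFanWithTop X t ∧
    ∀ (x : ℕ → X) (y : X), Tendsto x atTop (𝓝 y) →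
      ∀ (A : ℕ → Set X) (B : Set X), (∀ n, IsArcOrPoint (A n) t (x n)) → IsArcOrPoint B t y →
        Tendsto (fun n => Metric.hausdorffDist (A n) B) atTop (𝓝 0)

/-- The number of orbits of the action of the homeomorphism group of `X` on `X` (`0` if there are
infinitely many); `X` is `1/n`-homogeneous iff this number is `n`. -/
noncomputable def homogeneityDegree (X : Type*) [TopologicalSpace X] : ℕ :=
  Nat.card (Quot fun x y : X => ∃ f : X ≃ₜ X, f x = y)

end Pool.Agent.MP2a55c9
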