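import Pool.Agent.Lib.MP_2a55c9_gt.Defs

/-!
# Countable planar fans are smooth fans
-/

open Set Filter Topology

namespace Pool.Agent.MP2a55c9

section General

variable {J : Type*} (c H : J → ℝ)

/-- The union of the legs `{(y c_j, y) : 0 ≤ y ≤ H_j}`. -/
def fanSet : Set (ℝ × ℝ) := {p | ∃ j, 0 ≤ p.2 ∧ p.2 ≤ H j ∧ p.1 = p.2 * c j}

/-- The fan as a subspace of the plane. -/
abbrev Fan : Type := {p : ℝ × ℝ // p ∈ fanSet c H}

variable {c H}

/-- The assumptions on the data. -/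
structure Data (c H : J → ℝ) : Prop where
  inj : Function.Injective c
  cnt : Countable J
  pos : ∀ j, 0 < H j
  cpt : IsCompact (fanSet c H)
  three : ∃ a b d : J, a ≠ b ∧ a ≠ d ∧ b ≠ d

/-- The point of height `y` on leg `j`. -/
def pt (j : J) (y : ℝ) (h0 : 0 ≤ y) (h1 : y ≤ H j) : Fan c H := ⟨(y * c j, y), j, h0, h1, rfl⟩

/-- `z` lies on leg `j`. -/
def OnLeg (j : J) (z : Fan c H) : Prop := z.1.1 = z.1.2 * c j

lemma onLeg_pt (j : J) (y : ℝ) (h0 : 0 ≤ y) (h1 : y ≤ H j) : OnLeg j (pt (c := c) j y h0 h1) := rfl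

lemma onLeg_exists (z : Fan c H) : ∃ j, OnLeg j z ∧ z.1.2 ≤ H j := by
  obtain ⟨j, h0, h1, h2⟩ := z.2
  exact ⟨j, h2, h1⟩

lemma height_nonneg (z : Fan c H) : 0 ≤ z.1.2 := by
  obtain ⟨j, h0, h1, h2⟩ := z.2
  exact h0

variable (D : Data c H)

include D in
lemma Data.nonempty : Nonempty J := by
  obtain ⟨a, -⟩ := D.three
  exact ⟨a⟩

/-- The top. -/
noncomputable def Data.top : Fan c H :=
  ⟨(0, 0), (Classical.choice D.nonempty), le_refl _, (D.pos _).le, by simp⟩

lemma top_val : (D.top).1 = (0, 0) := rfl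

lemma eq_top_iff (z : Fan c H) : z = D.top ↔ z.1.2 = 0 := by
  constructor
  · intro h; rw [h]; rfl
  · intro h
    obtain ⟨j, hj, -⟩ := onLeg_exists z
    apply Subtype.ext
    rw [top_val]
    refine Prod.ext ?_ h
    show z.1.1 = 0
    rw [hj, h, zero_mul]

lemma height_pos (z : Fan c H) (h : z ≠ D.top) : 0 < z.1.2 :=
  lt_of_le_of_ne (height_nonneg z) (fun h' => h ((eq_top_iff D z).2 h'.symm))

lemma onLeg_top (j : J) : OnLeg j D.top := by
  show (0 : ℝ) = 0 * c j
  rw [zero_mul]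

include D in
lemma onLeg_unique {z : Fan c H} (hz : z.1.2 ≠ 0) {i j : J} (hi : OnLeg i z) (hj : OnLeg j z) :
    i = j := by
  apply D.inj
  unfold OnLeg at hi hj
  rw [hi] at hj
  exact mul_left_cancel₀ hz hj

include D in
lemma onLeg_le {z : Fan c H} (hz : z.1.2 ≠ 0) {j : J} (hj : OnLeg j z) : z.1.2 ≤ H j := by
  obtain ⟨i, hi, hle⟩ := onLeg_exists z
  rw [onLeg_unique D hz hj hi]
  exact hle

lemma ext_onLeg {z w : Fan c H} {j : J} (hz : OnLeg j z) (hw : OnLeg j w) (h : z.1.2 = w.1.2) :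
    z = w := by
  apply Subtype.ext
  refine Prod.ext ?_ h
  rw [hz, hw, h]

/-- The point of height `r` on the leg of `z`, for `r ≤` the height of `z`. -/
lemma exists_below {z : Fan c H} {j : J} (hz : OnLeg j z) (hle : z.1.2 ≤ H j) {r : ℝ} (h0 : 0 ≤ r)
    (h1 : r ≤ z.1.2) : ∃ w : Fan c H, OnLeg j w ∧ w.1.2 = r :=
  ⟨pt j r h0 (h1.trans hle), rfl, rfl⟩

include D in
/-- A connected set missing the top lies on one leg. -/
lemma single_leg {S : Set (Fan c H)} (hS : IsPreconnected S) (ht : D.top ∉ S) {z w : Fan c H}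
    (hz : z ∈ S) (hw : w ∈ S) {j : J} (hj : OnLeg j z) : OnLeg j w := by
  have hne : ∀ v ∈ S, v.1.2 ≠ 0 := by
    intro v hv h0
    exact ht (((eq_top_iff D v).2 h0) ▸ hv)
  have hcont : ContinuousOn (fun v : Fan c H => v.1.1 / v.1.2) S := by
    apply ContinuousOn.div
    · exact (continuous_fst.comp continuous_subtype_val).continuousOn
    · exact (continuous_snd.comp continuous_subtype_val).continuousOn
    · exact hne
  have hpre : IsPreconnected ((fun v : Fan c H => v.1.1 / v.1.2) '' S) := hS.image _ hcont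
  have hcnt : (range c).Countable := by
    have := D.cnt
    exact countable_range c
  have hsub : (fun v : Fan c H => v.1.1 / v.1.2) '' S ⊆ range c := by
    rintro _ ⟨v, hv, rfl⟩
    obtain ⟨i, hi, -⟩ := onLeg_exists v
    refine ⟨i, ?_⟩
    show c i = v.1.1 / v.1.2
    rw [hi, mul_div_cancel_left₀ _ (hne v hv)]
  have hss := hcnt.isTotallyDisconnected _ hsub hpre
  have heq : z.1.1 / z.1.2 = w.1.1 / w.1.2 := hss ⟨z, hz, rfl⟩ ⟨w, hw, rfl⟩
  unfold OnLeg at hj ⊢
  rw [hj, mul_div_cancel_left₀ _ (hne z hz)] at heq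
  rw [heq, mul_div_cancel₀ _ (hne w hw)]

include D in
/-- A closed connected set containing the top is star-shaped. -/
lemma star {S : Set (Fan c H)} (hS : IsPreconnected S) (hcl : IsClosed S) (ht : D.top ∈ S)
    {z : Fan c H} (hz : z ∈ S) {j : J} (hj : OnLeg j z) {w : Fan c H} (hw : OnLeg j w)
    (hle : w.1.2 ≤ z.1.2) : w ∈ S := by
  by_contra hwS
  have hw0 : 0 < w.1.2 := by
    apply height_pos D
    rintro rfl
    exact hwS ht
  have hlt : w.1.2 < z.1.2 := by
    refine lt_of_le_of_ne hle (fun h => ?_)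
    exact hwS ((ext_onLeg hw hj h) ▸ hz)
  obtain ⟨ε, hε, hball⟩ := Metric.isOpen_iff.1 hcl.isOpen_compl w hwS
  have hcnt : (range c).Countable := by
    have := D.cnt
    exact countable_range c
  have hdense : Dense (range c)ᶜ := hcnt.dense_compl ℝ
  set y' := w.1.2 with hy'
  have hδ : 0 < ε / y' := div_pos hε hw0
  obtain ⟨u, huC, hu⟩ := hdense.exists_between (show c j - ε / y' < c j by linarith)
  obtain ⟨v, hvC, hv⟩ := hdense.exists_between (show c j < c j + ε / y' by linarith)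
  have hc1 : Continuous (fun p : Fan c H => p.1.1) := continuous_fst.comp continuous_subtype_val
  have hc2 : Continuous (fun p : Fan c H => p.1.2) := continuous_snd.comp continuous_subtype_val
  have hVo : IsOpen {p : Fan c H | y' < p.1.2 ∧ u * p.1.2 < p.1.1 ∧ p.1.1 < v * p.1.2} :=
    (isOpen_lt continuous_const hc2).inter
      ((isOpen_lt (continuous_const.mul hc2) hc1).inter (isOpen_lt hc1 (continuous_const.mul hc2)))
  have hWo : IsOpen {p : Fan c H | p.1.2 < y' ∨ p.1.1 < u * p.1.2 ∨ v * p.1.2 < p.1.1} :=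
    (isOpen_lt hc2 continuous_const).union
      ((isOpen_lt hc1 (continuous_const.mul hc2)).union (isOpen_lt (continuous_const.mul hc2) hc1))
  have hcover : S ⊆ {p : Fan c H | y' < p.1.2 ∧ u * p.1.2 < p.1.1 ∧ p.1.1 < v * p.1.2} ∪
      {p : Fan c H | p.1.2 < y' ∨ p.1.1 < u * p.1.2 ∨ v * p.1.2 < p.1.1} := by
    intro p hp
    by_cases h1 : p.1.2 < y'
    · exact Or.inr (Or.inl h1)
    push Not at h1
    have hp0 : 0 < p.1.2 := lt_of_lt_of_le hw0 h1
    obtain ⟨i, hi, -⟩ := onLeg_exists p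
    unfold OnLeg at hi
    rcases lt_trichotomy (c i) u with h | h | h
    · refine Or.inr (Or.inr (Or.inl ?_))
      rw [hi, mul_comm]
      exact mul_lt_mul_of_pos_right h hp0
    · exact absurd ⟨i, h⟩ huC
    · rcases lt_trichotomy (c i) v with h' | h' | h'
      · rcases lt_or_eq_of_le h1 with h2 | h2
        · left
          refine ⟨h2, ?_, ?_⟩
          · rw [hi, mul_comm p.1.2]
            exact mul_lt_mul_of_pos_right h hp0
          · rw [hi, mul_comm p.1.2]
            exact mul_lt_mul_of_pos_right h' hp0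
        · exfalso
          have : p ∈ Metric.ball w ε := by
            rw [Metric.mem_ball, Subtype.dist_eq, Prod.dist_eq, max_lt_iff]
            constructor
            · rw [Real.dist_eq, hi, hw, ← h2, ← mul_sub, abs_mul, abs_of_pos hw0]
              have hab : |c i - c j| < ε / y' := by
                rw [abs_lt]
                constructor
                · linarith [hu.1]
                · linarith [hv.2]
              calc y' * |c i - c j| < y' * (ε / y') := mul_lt_mul_of_pos_left hab hw0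
                _ = ε := mul_div_cancel₀ _ hw0.ne'
            · rw [← h2, hy', dist_self]
              exact hε
          exact hball this hp
      · exact absurd ⟨i, h'⟩ hvC
      · refine Or.inr (Or.inr (Or.inr ?_))
        rw [hi, mul_comm p.1.2]
        exact mul_lt_mul_of_pos_right h' hp0
  have hz0 : 0 < z.1.2 := hw0.trans hlt
  obtain ⟨p, -, ⟨hp1, hp2, hp3⟩, hp4⟩ := hS _ _ hVo hWo hcover
    ⟨z, hz, hlt, by
      rw [hj, mul_comm z.1.2]
      exact mul_lt_mul_of_pos_right hu.2 hz0, by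
      rw [hj, mul_comm z.1.2]
      exact mul_lt_mul_of_pos_right hv.1 hz0⟩
    ⟨D.top, ht, Or.inl hw0⟩
  rcases hp4 with h | h | h
  · exact absurd hp1 (not_lt.2 h.le)
  · exact absurd hp2 (not_lt.2 h.le)
  · exact absurd hp3 (not_lt.2 h.le)

include D in
/-- A closed connected set contains, with two points of a leg, the points of the leg between them. -/
lemma leg_convex {S : Set (Fan c H)} (hS : IsPreconnected S) (hcl : IsClosed S)
    {z z' : Fan c H} (hz : z ∈ S) (hz' : z' ∈ S) {j : J} (hj : OnLeg j z) (hj' : OnLeg j z')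
    {w : Fan c H} (hw : OnLeg j w) (h1 : z.1.2 ≤ w.1.2) (h2 : w.1.2 ≤ z'.1.2) : w ∈ S := by
  by_cases ht : D.top ∈ S
  · exact star D hS hcl ht hz' hj' hw h2
  · have hpre : IsPreconnected ((fun v : Fan c H => v.1.2) '' S) :=
      hS.image _ (continuous_snd.comp continuous_subtype_val).continuousOn
    have hord := hpre.ordConnected.out ⟨z, hz, rfl⟩ ⟨z', hz', rfl⟩ ⟨h1, h2⟩
    obtain ⟨v, hv, hvw⟩ := hord
    have hvj : OnLeg j v := single_leg D hS ht hz hv hj
    rw [← ext_onLeg hvj hw hvw]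
    exact hv

/-- The part of leg `j` between heights `a` and `b` is connected. -/
lemma legSeg_preconnected (j : J) {a b : ℝ} (h0 : 0 ≤ a) (hb : b ≤ H j) :
    IsPreconnected {z : Fan c H | OnLeg j z ∧ z.1.2 ∈ Icc a b} := by
  have himg : {z : Fan c H | OnLeg j z ∧ z.1.2 ∈ Icc a b} =
      (fun y : Icc a b => pt (c := c) (H := H) j y.1 (h0.trans y.2.1) (y.2.2.trans hb)) '' univ := by
    ext z
    constructor
    · rintro ⟨hz, hz2⟩
      refine ⟨⟨z.1.2, hz2⟩, trivial, ?_⟩
      exact ext_onLeg (j := j) rfl hz rfl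
    · rintro ⟨y, -, rfl⟩
      exact ⟨rfl, y.2⟩
  rw [himg]
  apply IsPreconnected.image
  · have : PreconnectedSpace (Icc a b) :=
      isPreconnected_iff_preconnectedSpace.1 isPreconnected_Icc
    exact isPreconnected_univ
  · apply Continuous.continuousOn
    unfold pt
    fun_prop

include D in
lemma unicoherent : HereditarilyUnicoherent (Fan c H) := by
  intro K A B hK hA hB hKAB
  have hAcl : IsClosed A := hA.1.isClosed
  have hBcl : IsClosed B := hB.1.isClosed
  have hne : (A ∩ B).Nonempty := by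
    have h := (isPreconnected_closed_iff.1 hK.2.isPreconnected) A B hAcl hBcl hKAB.le
      (by rw [hKAB]; obtain ⟨a, ha⟩ := hA.2.nonempty; exact ⟨a, Or.inl ha, ha⟩)
      (by rw [hKAB]; obtain ⟨b, hb⟩ := hB.2.nonempty; exact ⟨b, Or.inr hb, hb⟩)
    obtain ⟨x, -, hx⟩ := h
    exact ⟨x, hx⟩
  refine ⟨hne, ?_⟩
  have hconv : ∀ (z z' : Fan c H) (j : J), z ∈ A ∩ B → z' ∈ A ∩ B → OnLeg j z → OnLeg j z' →
      z.1.2 ≤ z'.1.2 → z'.1.2 ≤ H j → ∃ t, t ⊆ A ∩ B ∧ z ∈ t ∧ z' ∈ t ∧ IsPreconnected t := by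
    intro z z' j hz hz' hj hj' hle hH
    refine ⟨{w : Fan c H | OnLeg j w ∧ w.1.2 ∈ Icc z.1.2 z'.1.2}, ?_, ⟨hj, le_refl _, hle⟩,
      ⟨hj', hle, le_refl _⟩, legSeg_preconnected j (height_nonneg z) hH⟩
    rintro w ⟨hw, hw1, hw2⟩
    exact ⟨leg_convex D hA.2.isPreconnected hAcl hz.1 hz'.1 hj hj' hw hw1 hw2,
      leg_convex D hB.2.isPreconnected hBcl hz.2 hz'.2 hj hj' hw hw1 hw2⟩
  by_cases ht : D.top ∈ A ∩ B
  · apply isPreconnected_of_forall D.top
    intro z hz
    obtain ⟨j, hj, hH⟩ := onLeg_exists z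
    exact hconv D.top z j ht hz (onLeg_top D j) hj (height_nonneg z) hH
  · apply isPreconnected_of_forall_pair
    intro z hz z' hz'
    -- both points are on one leg
    have hsame : ∀ j, OnLeg j z → OnLeg j z' := by
      intro j hj
      by_cases htA : D.top ∈ A
      · have htB : D.top ∉ B := fun h => ht ⟨htA, h⟩
        exact single_leg D hB.2.isPreconnected htB hz.2 hz'.2 hj
      · exact single_leg D hA.2.isPreconnected htA hz.1 hz'.1 hj
    have hz0 : z.1.2 ≠ 0 := fun h => ht (((eq_top_iff D z).2 h) ▸ hz)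
    have hz0' : z'.1.2 ≠ 0 := fun h => ht (((eq_top_iff D z').2 h) ▸ hz')
    obtain ⟨j, hj, hH⟩ := onLeg_exists z
    have hj' := hsame j hj
    have hH' := onLeg_le D hz0' hj'
    rcases le_total z.1.2 z'.1.2 with h | h
    · exact hconv z z' j hz hz' hj hj' h hH'
    · obtain ⟨t, ht1, ht2, ht3, ht4⟩ := hconv z' z j hz' hz hj' hj h hH
      exact ⟨t, ht1, ht3, ht2, ht4⟩

/-- The arc inside leg `j` from height `a` to height `b`. -/
lemma legArc (j : J) {a b : ℝ} (ha0 : 0 ≤ a) (ha : a ≤ H j) (hb0 : 0 ≤ b) (hb : b ≤ H j)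
    (hab : a ≠ b) :
    IsArc {z : Fan c H | OnLeg j z ∧ z.1.2 ∈ uIcc a b} (pt j a ha0 ha) (pt j b hb0 hb) := by
  have hmem : ∀ τ : unitInterval, (1 - τ.1) * a + τ.1 * b ∈ uIcc a b := by
    intro τ
    have h : segment ℝ a b = uIcc a b := segment_eq_uIcc a b
    rw [← h]
    exact ⟨1 - τ.1, τ.1, by linarith [τ.2.2], τ.2.1, by ring, by simp [smul_eq_mul]⟩
  have hlo : ∀ y ∈ uIcc a b, 0 ≤ y := by
    intro y hy
    rw [mem_uIcc] at hy
    rcases hy with h | h
    · exact ha0.trans h.1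
    · exact hb0.trans h.1
  have hhi : ∀ y ∈ uIcc a b, y ≤ H j := by
    intro y hy
    rw [mem_uIcc] at hy
    rcases hy with h | h
    · exact h.2.trans hb
    · exact h.2.trans ha
  refine ⟨fun τ => pt j ((1 - τ.1) * a + τ.1 * b) (hlo _ (hmem τ)) (hhi _ (hmem τ)), ?_, ?_, ?_, ?_, ?_⟩
  · unfold pt
    fun_prop
  · intro τ τ' h
    have h2 : (1 - τ.1) * a + τ.1 * b = (1 - τ'.1) * a + τ'.1 * b :=
      congrArg (fun z : Fan c H => z.1.2) h
    have h3 : (τ.1 - τ'.1) * (b - a) = 0 := by linarith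
    rcases mul_eq_zero.1 h3 with h4 | h4
    · exact Subtype.ext (by linarith)
    · exact absurd (by linarith) hab
  · apply ext_onLeg (onLeg_pt j _ _ _) (onLeg_pt j _ _ _)
    show (1 - ((0 : unitInterval) : ℝ)) * a + ((0 : unitInterval) : ℝ) * b = a
    simp
  · apply ext_onLeg (onLeg_pt j _ _ _) (onLeg_pt j _ _ _)
    show (1 - ((1 : unitInterval) : ℝ)) * a + ((1 : unitInterval) : ℝ) * b = b
    simp
  · ext z
    constructor
    · rintro ⟨τ, rfl⟩
      exact ⟨rfl, hmem τ⟩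
    · rintro ⟨hz, hz2⟩
      have h : segment ℝ a b = uIcc a b := segment_eq_uIcc a b
      rw [← h] at hz2
      obtain ⟨α, β, hα, hβ, hαβ, hz3⟩ := hz2
      refine ⟨⟨β, hβ, by linarith⟩, ?_⟩
      apply ext_onLeg (onLeg_pt j _ _ _) hz
      show (1 - β) * a + β * b = z.1.2
      rw [← hz3, ← hαβ]
      simp [smul_eq_mul]

/-- The segment from the top to `z`. -/
def seg (z : Fan c H) : Set (Fan c H) :=
  {w | ∃ τ : ℝ, 0 ≤ τ ∧ τ ≤ 1 ∧ w.1.1 = τ * z.1.1 ∧ w.1.2 = τ * z.1.2}

lemma seg_eq {z : Fan c H} {j : J} (hj : OnLeg j z) (hz : z.1.2 ≠ 0) :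
    seg z = {w : Fan c H | OnLeg j w ∧ w.1.2 ∈ Icc 0 z.1.2} := by
  have hz0 : 0 < z.1.2 := lt_of_le_of_ne (height_nonneg z) (Ne.symm hz)
  ext w
  constructor
  · rintro ⟨τ, h0, h1, h2, h3⟩
    refine ⟨?_, ?_, ?_⟩
    · unfold OnLeg at hj ⊢
      rw [h2, h3, hj]
      ring
    · rw [h3]; positivity
    · rw [h3]
      exact mul_le_of_le_one_left hz0.le h1
  · rintro ⟨hw, hw1, hw2⟩
    refine ⟨w.1.2 / z.1.2, by positivity, (div_le_one hz0).2 hw2, ?_, ?_⟩
    · unfold OnLeg at hj hw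
      rw [hw, hj]
      field_simp
    · field_simp

include D in
lemma seg_eq_top {z : Fan c H} (hz : z.1.2 = 0) : seg z = {D.top} := by
  have hzt : z = D.top := (eq_top_iff D z).2 hz
  ext w
  rw [mem_singleton_iff, eq_top_iff D]
  constructor
  · rintro ⟨τ, h0, h1, h2, h3⟩
    rw [h3, hz, mul_zero]
  · intro h
    refine ⟨0, le_refl _, zero_le_one, ?_, by rw [h, zero_mul]⟩
    have : w = D.top := (eq_top_iff D w).2 h
    rw [this, top_val]
    simp

include D in
/-- The arc from the top to `z` is the segment. -/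
lemma arc_unique {A : Set (Fan c H)} {z : Fan c H} (hA : IsArc A D.top z) : A = seg z := by
  have hzt : z ≠ D.top := by
    rintro rfl
    obtain ⟨f, -, hinj, h0, h1, -⟩ := hA
    exact zero_ne_one (hinj (h0.trans h1.symm))
  have hz0 : 0 < z.1.2 := height_pos D z hzt
  obtain ⟨j, hj, hH⟩ := onLeg_exists z
  rw [seg_eq hj hz0.ne']
  obtain ⟨f, hf, hinj, h0, h1, hr⟩ := hA
  have hAc : IsCompact A := by rw [← hr]; exact isCompact_range hf
  have hAp : IsPreconnected A := by rw [← hr]; exact isPreconnected_range hf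
  have htA : D.top ∈ A := by rw [← hr]; exact ⟨0, h0⟩
  have hzA : z ∈ A := by rw [← hr]; exact ⟨1, h1⟩
  have hsub : {w : Fan c H | OnLeg j w ∧ w.1.2 ∈ Icc 0 z.1.2} ⊆ A := by
    rintro w ⟨hw, -, hw2⟩
    exact star D hAp hAc.isClosed htA hzA hj hw hw2
  apply Subset.antisymm _ hsub
  have hpre : IsPreconnected (f ⁻¹' {w : Fan c H | OnLeg j w ∧ w.1.2 ∈ Icc 0 z.1.2}) := by
    apply IsPreconnected.preimage_of_isClosedMap (legSeg_preconnected j (le_refl 0) hH) hinj
      hf.isClosedMap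
    rw [hr]
    exact hsub
  have hall : ∀ τ : unitInterval, f τ ∈ {w : Fan c H | OnLeg j w ∧ w.1.2 ∈ Icc 0 z.1.2} := by
    intro τ
    have h0' : (0 : unitInterval) ∈ f ⁻¹' {w : Fan c H | OnLeg j w ∧ w.1.2 ∈ Icc 0 z.1.2} := by
      rw [mem_preimage, h0]
      exact ⟨onLeg_top D j, le_refl _, hz0.le⟩
    have h1' : (1 : unitInterval) ∈ f ⁻¹' {w : Fan c H | OnLeg j w ∧ w.1.2 ∈ Icc 0 z.1.2} := by
      rw [mem_preimage, h1]
      exact ⟨hj, hz0.le, le_refl _⟩
    exact hpre.ordConnected.out h0' h1' ⟨τ.2.1, τ.2.2⟩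
  rw [← hr]
  rintro _ ⟨τ, rfl⟩
  exact hall τ

include D in
lemma arcOrPoint_unique {A : Set (Fan c H)} {z : Fan c H} (hA : IsArcOrPoint A D.top z) :
    A = seg z := by
  rcases hA with h | ⟨h, h'⟩
  · exact arc_unique D h
  · have hz : z.1.2 = 0 := (eq_top_iff D z).1 h.symm
    rw [seg_eq_top D hz, h']

lemma mem_seg_scale (z : Fan c H) {τ : ℝ} (h0 : 0 ≤ τ) (h1 : τ ≤ 1) :
    ∃ w ∈ seg z, w.1 = (τ * z.1.1, τ * z.1.2) := by
  obtain ⟨j, hj, hH⟩ := onLeg_exists z
  have hle : τ * z.1.2 ≤ z.1.2 := mul_le_of_le_one_left (height_nonneg z) h1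
  refine ⟨⟨(τ * z.1.1, τ * z.1.2), j, mul_nonneg h0 (height_nonneg z), hle.trans hH, ?_⟩,
    ⟨τ, h0, h1, rfl, rfl⟩, rfl⟩
  show τ * z.1.1 = τ * z.1.2 * c j
  rw [hj]
  ring

lemma hausdorff_seg (z w : Fan c H) : Metric.hausdorffDist (seg z) (seg w) ≤ dist z w := by
  have key : ∀ z w : Fan c H, ∀ x ∈ seg z, ∃ y ∈ seg w, dist x y ≤ dist z w := by
    rintro z w x ⟨τ, h0, h1, h2, h3⟩
    obtain ⟨y, hy, hyv⟩ := mem_seg_scale w h0 h1
    refine ⟨y, hy, ?_⟩
    rw [Subtype.dist_eq, Subtype.dist_eq, Prod.dist_eq, Prod.dist_eq, hyv, h2, h3]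
    have e1 : dist (τ * z.1.1) (τ * w.1.1) = τ * dist z.1.1 w.1.1 := by
      rw [Real.dist_eq, Real.dist_eq, ← mul_sub, abs_mul, abs_of_nonneg h0]
    have e2 : dist (τ * z.1.2) (τ * w.1.2) = τ * dist z.1.2 w.1.2 := by
      rw [Real.dist_eq, Real.dist_eq, ← mul_sub, abs_mul, abs_of_nonneg h0]
    rw [e1, e2]
    apply max_le_max
    · exact mul_le_of_le_one_left dist_nonneg h1
    · exact mul_le_of_le_one_left dist_nonneg h1
  apply Metric.hausdorffDist_le_of_mem_dist dist_nonneg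
  · exact key z w
  · intro x hx
    rw [dist_comm z w]
    exact key w z x hx

include D in
lemma smooth (x : ℕ → Fan c H) (y : Fan c H) (hx : Tendsto x atTop (𝓝 y)) (A : ℕ → Set (Fan c H))
    (B : Set (Fan c H)) (hA : ∀ n, IsArcOrPoint (A n) D.top (x n)) (hB : IsArcOrPoint B D.top y) :
    Tendsto (fun n => Metric.hausdorffDist (A n) B) atTop (𝓝 0) := by
  have hA' : ∀ n, A n = seg (x n) := fun n => arcOrPoint_unique D (hA n)
  have hB' : B = seg y := arcOrPoint_unique D hB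
  subst hB'
  simp only [hA']
  refine squeeze_zero (fun n => Metric.hausdorffDist_nonneg) (fun n => hausdorff_seg (x n) y) ?_
  exact tendsto_iff_dist_tendsto_zero.1 hx

include D in
lemma arcwise (x y : Fan c H) (hxy : x ≠ y) : ∃ A : Set (Fan c H), IsArc A x y := by
  by_cases hleg : ∃ j, OnLeg j x ∧ OnLeg j y ∧ x.1.2 ≤ H j ∧ y.1.2 ≤ H j
  · obtain ⟨j, hx, hy, hxH, hyH⟩ := hleg
    have hne : x.1.2 ≠ y.1.2 := fun h => hxy (ext_onLeg hx hy h)
    have h := legArc (c := c) (H := H) j (height_nonneg x) hxH (height_nonneg y) hyH hne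
    have e1 : pt (c := c) (H := H) j x.1.2 (height_nonneg x) hxH = x := ext_onLeg (j := j) rfl hx rfl
    have e2 : pt (c := c) (H := H) j y.1.2 (height_nonneg y) hyH = y := ext_onLeg (j := j) rfl hy rfl
    rw [e1, e2] at h
    exact ⟨_, h⟩
  · push Not at hleg
    obtain ⟨i, hi, hiH⟩ := onLeg_exists x
    obtain ⟨j, hj, hjH⟩ := onLeg_exists y
    have hx0 : x.1.2 ≠ 0 := by
      intro h
      have hxt : x = D.top := (eq_top_iff D x).2 h
      have := hleg j (hxt ▸ onLeg_top D j) hj (by rw [h]; exact (D.pos j).le)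
      exact absurd hjH (not_le.2 this)
    have hy0 : y.1.2 ≠ 0 := by
      intro h
      have hyt : y = D.top := (eq_top_iff D y).2 h
      have := hleg i hi (hyt ▸ onLeg_top D i) hiH
      rw [h] at this
      exact absurd (D.pos i) (not_lt.2 this.le)
    have hij : i ≠ j := by
      rintro rfl
      exact absurd hjH (not_le.2 (hleg i hi hj hiH))
    have hx1 : 0 < x.1.2 := lt_of_le_of_ne (height_nonneg x) (Ne.symm hx0)
    have hy1 : 0 < y.1.2 := lt_of_le_of_ne (height_nonneg y) (Ne.symm hy0)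
    -- the concatenated path
    have hmem : ∀ τ : unitInterval,
        ((max (1 - 2 * τ.1) 0) * x.1.1 + (max (2 * τ.1 - 1) 0) * y.1.1,
          (max (1 - 2 * τ.1) 0) * x.1.2 + (max (2 * τ.1 - 1) 0) * y.1.2) ∈ fanSet c H := by
      intro τ
      rcases le_total τ.1 (1 / 2) with h | h
      · have e : max (2 * τ.1 - 1) 0 = 0 := max_eq_right (by linarith)
        have e' : max (1 - 2 * τ.1) 0 = 1 - 2 * τ.1 := max_eq_left (by linarith)
        rw [e, e']
        have hτ := τ.2.1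
        refine ⟨i, ?_, ?_, ?_⟩
        · show 0 ≤ (1 - 2 * τ.1) * x.1.2 + 0 * y.1.2
          have : 0 ≤ (1 - 2 * τ.1) * x.1.2 := mul_nonneg (by linarith) hx1.le
          linarith
        · show (1 - 2 * τ.1) * x.1.2 + 0 * y.1.2 ≤ H i
          have : (1 - 2 * τ.1) * x.1.2 ≤ x.1.2 := mul_le_of_le_one_left hx1.le (by linarith)
          linarith
        · show (1 - 2 * τ.1) * x.1.1 + 0 * y.1.1 = ((1 - 2 * τ.1) * x.1.2 + 0 * y.1.2) * c i
          rw [hi]
          ring
      · have e : max (2 * τ.1 - 1) 0 = 2 * τ.1 - 1 := max_eq_left (by linarith)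
        have e' : max (1 - 2 * τ.1) 0 = 0 := max_eq_right (by linarith)
        rw [e, e']
        have hτ := τ.2.2
        refine ⟨j, ?_, ?_, ?_⟩
        · show 0 ≤ 0 * x.1.2 + (2 * τ.1 - 1) * y.1.2
          have : 0 ≤ (2 * τ.1 - 1) * y.1.2 := mul_nonneg (by linarith) hy1.le
          linarith
        · show 0 * x.1.2 + (2 * τ.1 - 1) * y.1.2 ≤ H j
          have : (2 * τ.1 - 1) * y.1.2 ≤ y.1.2 := mul_le_of_le_one_left hy1.le (by linarith)
          linarith
        · show 0 * x.1.1 + (2 * τ.1 - 1) * y.1.1 = (0 * x.1.2 + (2 * τ.1 - 1) * y.1.2) * c j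
          rw [hj]
          ring
    refine ⟨_, fun τ => ⟨_, hmem τ⟩, ?_, ?_, ?_, ?_, rfl⟩
    · fun_prop
    · intro τ τ' h
      have e1 := congrArg (fun z : Fan c H => z.1.1) h
      have e2 := congrArg (fun z : Fan c H => z.1.2) h
      simp only at e1 e2
      have key : ∀ a b a' b' : ℝ, 0 ≤ a → 0 ≤ b → 0 ≤ a' → 0 ≤ b' →
          (a = 0 ∨ b = 0) → (a' = 0 ∨ b' = 0) →
          a * x.1.1 + b * y.1.1 = a' * x.1.1 + b' * y.1.1 →
          a * x.1.2 + b * y.1.2 = a' * x.1.2 + b' * y.1.2 → a = a' ∧ b = b' := by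
        intro a b a' b' ha hb ha' hb' hab hab' h1 h2
        rw [hi, hj] at h1
        have hcne : c i ≠ c j := fun h => hij (D.inj h)
        have hcne' : c i - c j ≠ 0 := sub_ne_zero.2 hcne
        have h3 : (a - a') * x.1.2 * (c i - c j) = 0 := by linear_combination h1 - c j * h2
        have h4 : (b - b') * y.1.2 * (c j - c i) = 0 := by linear_combination h1 - c i * h2
        constructor
        · rcases mul_eq_zero.1 h3 with h5 | h5
          · rcases mul_eq_zero.1 h5 with h6 | h6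
            · linarith
            · exact absurd h6 hx0
          · exact absurd h5 hcne'
        · rcases mul_eq_zero.1 h4 with h5 | h5
          · rcases mul_eq_zero.1 h5 with h6 | h6
            · linarith
            · exact absurd h6 hy0
          · exact absurd (by linarith : c i - c j = 0) hcne'
      have hz : ∀ τ : unitInterval, max (1 - 2 * τ.1) 0 = 0 ∨ max (2 * τ.1 - 1) 0 = 0 := by
        intro τ
        rcases le_total τ.1 (1 / 2) with h | h
        · right; exact max_eq_right (by linarith)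
        · left; exact max_eq_right (by linarith)
      obtain ⟨k1, k2⟩ := key _ _ _ _ (le_max_right _ _) (le_max_right _ _) (le_max_right _ _)
        (le_max_right _ _) (hz τ) (hz τ') e1 e2
      apply Subtype.ext
      rcases le_total τ.1 (1 / 2) with h | h
      · rcases le_total τ'.1 (1 / 2) with h' | h'
        · rw [max_eq_left (by linarith), max_eq_left (by linarith)] at k1
          linarith
        · rw [max_eq_left (by linarith), max_eq_right (by linarith)] at k1
          rw [max_eq_right (by linarith), max_eq_left (by linarith)] at k2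
          linarith
      · rcases le_total τ'.1 (1 / 2) with h' | h'
        · rw [max_eq_right (by linarith), max_eq_left (by linarith)] at k1
          rw [max_eq_left (by linarith), max_eq_right (by linarith)] at k2
          linarith
        · rw [max_eq_left (by linarith), max_eq_left (by linarith)] at k2
          linarith
    · apply Subtype.ext
      simp
    · apply Subtype.ext
      have e : max ((1 : ℝ) - 2 * ((1 : unitInterval) : ℝ)) 0 = 0 := by
        rw [Icc.coe_one]; norm_num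
      have e' : max (2 * ((1 : unitInterval) : ℝ) - 1) 0 = 1 := by
        rw [Icc.coe_one]; norm_num
      show (max (1 - 2 * ((1 : unitInterval) : ℝ)) 0 * x.1.1 +
          max (2 * ((1 : unitInterval) : ℝ) - 1) 0 * y.1.1,
        max (1 - 2 * ((1 : unitInterval) : ℝ)) 0 * x.1.2 +
          max (2 * ((1 : unitInterval) : ℝ) - 1) 0 * y.1.2) = y.1
      rw [e, e']
      refine Prod.ext ?_ ?_
      · show 0 * x.1.1 + 1 * y.1.1 = y.1.1
        ring
      · show 0 * x.1.2 + 1 * y.1.2 = y.1.2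
        ring

/-- An arc starting at a point of leg `j` other than the top contains a piece of leg `j`. -/
lemma arc_local {A : Set (Fan c H)} {s a : Fan c H} (hA : IsArc A s a) (hs : s ≠ D.top) {j : J}
    (hj : OnLeg j s) :
    ∃ b : ℝ, b ≠ s.1.2 ∧ ∀ r ∈ uIcc s.1.2 b, ∃ z ∈ A, OnLeg j z ∧ z.1.2 = r := by
  obtain ⟨f, hf, hinj, h0, h1, hr⟩ := hA
  have hnhds : {τ : unitInterval | f τ ≠ D.top} ∈ 𝓝 (0 : unitInterval) := by
    have hopen : IsOpen {τ : unitInterval | f τ ≠ D.top} :=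
      isOpen_ne_fun hf continuous_const
    exact hopen.mem_nhds (by show f 0 ≠ D.top; rw [h0]; exact hs)
  obtain ⟨ε, hε, hball⟩ := Metric.mem_nhds_iff.1 hnhds
  have hδ0 : 0 < min (ε / 2) 1 := lt_min (by linarith) one_pos
  let δ : unitInterval := ⟨min (ε / 2) 1, hδ0.le, min_le_right _ _⟩
  have hδ : ∀ τ ∈ Icc (0 : unitInterval) δ, f τ ≠ D.top := by
    intro τ hτ
    apply hball
    rw [Metric.mem_ball, Subtype.dist_eq, Real.dist_eq]
    have h2 : τ.1 ≤ min (ε / 2) 1 := hτ.2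
    have h3 : min (ε / 2) 1 ≤ ε / 2 := min_le_left _ _
    have h4 : (0 : ℝ) ≤ τ.1 := τ.2.1
    show |τ.1 - 0| < ε
    rw [sub_zero, abs_of_nonneg h4]
    linarith
  have hSp : IsPreconnected (f '' Icc 0 δ) := isPreconnected_Icc.image _ hf.continuousOn
  have hSt : D.top ∉ f '' Icc 0 δ := by
    rintro ⟨τ, hτ, h⟩
    exact hδ τ hτ h
  have h0mem : s ∈ f '' Icc 0 δ := ⟨0, ⟨le_refl _, hδ0.le⟩, h0⟩
  have hδmem : f δ ∈ f '' Icc 0 δ := ⟨δ, ⟨hδ0.le, le_refl _⟩, rfl⟩
  have hleg : ∀ z ∈ f '' Icc 0 δ, OnLeg j z := fun z hz => single_leg D hSp hSt h0mem hz hj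
  refine ⟨(f δ).1.2, ?_, ?_⟩
  · intro h
    have : f δ = s := ext_onLeg (hleg _ hδmem) hj h
    rw [← h0] at this
    have h5 := hinj this
    have h6 : min (ε / 2) 1 = 0 := congrArg Subtype.val h5
    linarith
  · intro r hr'
    have hpre : IsPreconnected ((fun v : Fan c H => v.1.2) '' (f '' Icc 0 δ)) :=
      hSp.image _ (continuous_snd.comp continuous_subtype_val).continuousOn
    have hoc := hpre.ordConnected.uIcc_subset ⟨s, h0mem, rfl⟩ ⟨f δ, hδmem, rfl⟩ hr'
    obtain ⟨z, hz, hzr⟩ := hoc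
    refine ⟨z, ?_, hleg z hz, hzr⟩
    rw [← hr]
    obtain ⟨τ, -, hτ⟩ := hz
    exact ⟨τ, hτ⟩

/-- Two arcs from `s ≠ top` that leave `s` in the same direction share another point. -/
lemma share {A B : Set (Fan c H)} {s : Fan c H} {j : J} {b b' : ℝ}
    (hb : ∀ r ∈ uIcc s.1.2 b, ∃ z ∈ A, OnLeg j z ∧ z.1.2 = r)
    (hb' : ∀ r ∈ uIcc s.1.2 b', ∃ z ∈ B, OnLeg j z ∧ z.1.2 = r)
    (hdir : (s.1.2 < b ∧ s.1.2 < b') ∨ (b < s.1.2 ∧ b' < s.1.2)) : A ∩ B ≠ {s} := by
  intro hAB
  rcases hdir with ⟨h1, h2⟩ | ⟨h1, h2⟩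
  · obtain ⟨z, hz, hzj, hzr⟩ := hb (min b b') (by
      rw [uIcc_of_le h1.le]; exact ⟨le_min h1.le h2.le, min_le_left _ _⟩)
    obtain ⟨z', hz', hzj', hzr'⟩ := hb' (min b b') (by
      rw [uIcc_of_le h2.le]; exact ⟨le_min h1.le h2.le, min_le_right _ _⟩)
    have : z = z' := ext_onLeg hzj hzj' (hzr.trans hzr'.symm)
    have hmem : z ∈ A ∩ B := ⟨hz, this ▸ hz'⟩
    rw [hAB, mem_singleton_iff] at hmem
    rw [hmem] at hzr
    have : s.1.2 < min b b' := lt_min h1 h2
    linarith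
  · obtain ⟨z, hz, hzj, hzr⟩ := hb (max b b') (by
      rw [uIcc_of_ge h1.le]; exact ⟨le_max_left _ _, max_le h1.le h2.le⟩)
    obtain ⟨z', hz', hzj', hzr'⟩ := hb' (max b b') (by
      rw [uIcc_of_ge h2.le]; exact ⟨le_max_right _ _, max_le h1.le h2.le⟩)
    have : z = z' := ext_onLeg hzj hzj' (hzr.trans hzr'.symm)
    have hmem : z ∈ A ∩ B := ⟨hz, this ▸ hz'⟩
    rw [hAB, mem_singleton_iff] at hmem
    rw [hmem] at hzr
    have : max b b' < s.1.2 := max_lt h1 h2
    linarith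

include D in
lemma ram_iff (s : Fan c H) : IsRamificationPoint s ↔ s = D.top := by
  constructor
  · rintro ⟨A, B, C, a, b, d, hA, hB, hC, hAB, hAC, hBC⟩
    by_contra hs
    obtain ⟨j, hj, -⟩ := onLeg_exists s
    obtain ⟨x, hx, hx'⟩ := arc_local D hA hs hj
    obtain ⟨y, hy, hy'⟩ := arc_local D hB hs hj
    obtain ⟨w, hw, hw'⟩ := arc_local D hC hs hj
    rcases lt_or_gt_of_ne hx with h1 | h1 <;> rcases lt_or_gt_of_ne hy with h2 | h2
    · exact share hx' hy' (Or.inr ⟨h1, h2⟩) hAB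
    · rcases lt_or_gt_of_ne hw with h3 | h3
      · exact share hx' hw' (Or.inr ⟨h1, h3⟩) hAC
      · exact share hy' hw' (Or.inl ⟨h2, h3⟩) hBC
    · rcases lt_or_gt_of_ne hw with h3 | h3
      · exact share hy' hw' (Or.inr ⟨h2, h3⟩) hBC
      · exact share hx' hw' (Or.inl ⟨h1, h3⟩) hAC
    · exact share hx' hy' (Or.inl ⟨h1, h2⟩) hAB
  · rintro rfl
    obtain ⟨i, j, k, hij, hik, hjk⟩ := D.three
    have harc : ∀ i : J, IsArc {z : Fan c H | OnLeg i z ∧ z.1.2 ∈ uIcc 0 (H i)} D.top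
        (pt i (H i) (D.pos i).le le_rfl) := by
      intro i
      have h := legArc (c := c) (H := H) i le_rfl (D.pos i).le (D.pos i).le le_rfl (D.pos i).ne
      have e : pt (c := c) (H := H) i 0 le_rfl (D.pos i).le = D.top :=
        (eq_top_iff D _).2 rfl
      rw [e] at h
      exact h
    have hint : ∀ i j : J, i ≠ j → {z : Fan c H | OnLeg i z ∧ z.1.2 ∈ uIcc 0 (H i)} ∩
        {z : Fan c H | OnLeg j z ∧ z.1.2 ∈ uIcc 0 (H j)} = {D.top} := by
      intro i j hij
      ext z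
      rw [mem_singleton_iff]
      constructor
      · rintro ⟨⟨hz, -⟩, hz', -⟩
        by_contra hne
        exact hij (onLeg_unique D (fun h => hne ((eq_top_iff D z).2 h)) hz hz')
      · rintro rfl
        exact ⟨⟨onLeg_top D i, left_mem_uIcc⟩, ⟨onLeg_top D j, left_mem_uIcc⟩⟩
    exact ⟨_, _, _, _, _, _, harc i, harc j, harc k, hint i j hij, hint i k hik, hint j k hjk⟩

include D in
theorem isSmoothFan : IsSmoothFan (Fan c H) := by
  refine ⟨D.top, ⟨⟨?_, ?_, arcwise D, unicoherent D⟩, (ram_iff D _).2 rfl,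
    fun s hs => (ram_iff D s).1 hs⟩, smooth D⟩
  · exact isCompact_iff_compactSpace.1 D.cpt
  · have hpre : IsPreconnected (univ : Set (Fan c H)) := by
      apply isPreconnected_of_forall D.top
      intro z _
      obtain ⟨j, hj, hH⟩ := onLeg_exists z
      refine ⟨{w : Fan c H | OnLeg j w ∧ w.1.2 ∈ Icc 0 z.1.2}, subset_univ _,
        ⟨onLeg_top D j, le_refl _, height_nonneg z⟩, ⟨hj, height_nonneg z, le_refl _⟩,
        legSeg_preconnected j (le_refl 0) hH⟩
    exact { toPreconnectedSpace := ⟨hpre⟩, toNonempty := ⟨D.top⟩ }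

/-- `x` is a common end point of two arcs that meet only in `x`. -/
def IsPass {X : Type*} [MetricSpace X] (x : X) : Prop :=
  ∃ (A B : Set X) (a b : X), IsArc A x a ∧ IsArc B x b ∧ A ∩ B = {x}

include D in
lemma pass_top : IsPass (D.top : Fan c H) := by
  obtain ⟨A, B, C, a, b, d, hA, hB, -, hAB, -, -⟩ := (ram_iff D D.top).2 rfl
  exact ⟨A, B, a, b, hA, hB, hAB⟩

include D in
lemma pass_iff (z : Fan c H) : IsPass z ↔ ¬ ∃ j, OnLeg j z ∧ z.1.2 = H j := by
  constructor
  · rintro ⟨A, B, a, b, hA, hB, hAB⟩ ⟨j, hj, hz⟩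
    have hne : z ≠ D.top := by
      intro h
      have h1 : z.1.2 = 0 := (eq_top_iff D z).1 h
      have := D.pos j
      linarith
    obtain ⟨x, hx, hx'⟩ := arc_local D hA hne hj
    obtain ⟨y, hy, hy'⟩ := arc_local D hB hne hj
    have key : ∀ (S : Set (Fan c H)) (x : ℝ), x ≠ z.1.2 →
        (∀ r ∈ uIcc z.1.2 x, ∃ w ∈ S, OnLeg j w ∧ w.1.2 = r) → x < z.1.2 := by
      intro S x hx hx'
      rcases lt_or_gt_of_ne hx with h | h
      · exact h
      · exfalso
        obtain ⟨w, -, hw, hw2⟩ := hx' x right_mem_uIcc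
        have hw0 : w.1.2 ≠ 0 := by
          have := height_nonneg z
          linarith
        have := onLeg_le D hw0 hw
        linarith
    exact share hx' hy' (Or.inr ⟨key A x hx hx', key B y hy hy'⟩) hAB
  · intro h
    obtain ⟨j, hj, hle⟩ := onLeg_exists z
    by_cases hz0 : z.1.2 = 0
    · rw [(eq_top_iff D z).2 hz0]
      exact pass_top D
    · have hzpos : 0 < z.1.2 := lt_of_le_of_ne (height_nonneg z) (Ne.symm hz0)
      have hlt : z.1.2 < H j := lt_of_le_of_ne hle (fun h' => h ⟨j, hj, h'⟩)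
      have h1 := legArc (c := c) (H := H) j hzpos.le hle (D.pos j).le le_rfl hlt.ne
      have h2 := legArc (c := c) (H := H) j hzpos.le hle le_rfl (D.pos j).le hz0
      have e : pt (c := c) (H := H) j z.1.2 hzpos.le hle = z := ext_onLeg (onLeg_pt j _ _ _) hj rfl
      rw [e] at h1 h2
      refine ⟨_, _, _, _, h1, h2, ?_⟩
      ext w
      rw [mem_singleton_iff]
      constructor
      · rintro ⟨⟨hw, hw1⟩, -, hw2⟩
        rw [uIcc_of_le hle] at hw1
        rw [uIcc_of_ge hzpos.le] at hw2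
        exact ext_onLeg hw hj (le_antisymm hw2.2 hw1.1)
      · rintro rfl
        exact ⟨⟨hj, left_mem_uIcc⟩, ⟨hj, left_mem_uIcc⟩⟩

end General

end Pool.Agent.MP2a55c9
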