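import Pool.Agent.Lib.MP_2a55c9_gt.General

/-!
# Topological invariants of points, and some order isomorphisms of the extended reals
-/

open Set Filter Topology

namespace Pool.Agent.MP2a55c9

section Invariants

variable {X Y : Type*} [MetricSpace X] [MetricSpace Y]

/-- `x` has a connected neighbourhood without ramification points. -/
def IsNice (x : X) : Prop :=
  ∃ V ∈ 𝓝 x, IsPreconnected V ∧ ∀ v ∈ V, ¬ IsRamificationPoint v

lemma IsArc.map (f : X ≃ₜ Y) {A : Set X} {x y : X} (h : IsArc A x y) :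
    IsArc (f '' A) (f x) (f y) := by
  obtain ⟨g, hg, hinj, h0, h1, hr⟩ := h
  refine ⟨f ∘ g, f.continuous.comp hg, f.injective.comp hinj, ?_, ?_, ?_⟩
  · rw [Function.comp_apply, h0]
  · rw [Function.comp_apply, h1]
  · rw [range_comp, hr]

lemma IsRamificationPoint.map (f : X ≃ₜ Y) {x : X} (h : IsRamificationPoint x) :
    IsRamificationPoint (f x) := by
  obtain ⟨A, B, C, a, b, c, hA, hB, hC, h1, h2, h3⟩ := h
  refine ⟨f '' A, f '' B, f '' C, f a, f b, f c, hA.map f, hB.map f, hC.map f, ?_, ?_, ?_⟩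
  · rw [← image_inter f.injective, h1, image_singleton]
  · rw [← image_inter f.injective, h2, image_singleton]
  · rw [← image_inter f.injective, h3, image_singleton]

lemma ram_map_iff (f : X ≃ₜ Y) (x : X) : IsRamificationPoint (f x) ↔ IsRamificationPoint x := by
  constructor
  · intro h
    have := h.map f.symm
    rwa [f.symm_apply_apply] at this
  · exact fun h => h.map f

lemma IsPass.map (f : X ≃ₜ Y) {x : X} (h : IsPass x) : IsPass (f x) := by
  obtain ⟨A, B, a, b, hA, hB, h1⟩ := h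
  refine ⟨f '' A, f '' B, f a, f b, hA.map f, hB.map f, ?_⟩
  rw [← image_inter f.injective, h1, image_singleton]

lemma pass_map_iff (f : X ≃ₜ Y) (x : X) : IsPass (f x) ↔ IsPass x := by
  constructor
  · intro h
    have := h.map f.symm
    rwa [f.symm_apply_apply] at this
  · exact fun h => h.map f

lemma IsNice.map (f : X ≃ₜ Y) {x : X} (h : IsNice x) : IsNice (f x) := by
  obtain ⟨V, hV, hp, hr⟩ := h
  refine ⟨f '' V, ?_, hp.image f f.continuous.continuousOn, ?_⟩
  · rw [← f.map_nhds_eq]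
    exact image_mem_map hV
  · rintro _ ⟨v, hv, rfl⟩ hram
    exact hr v hv ((ram_map_iff f v).1 hram)

lemma nice_map_iff (f : X ≃ₜ Y) (x : X) : IsNice (f x) ↔ IsNice x := by
  constructor
  · intro h
    have := h.map f.symm
    rwa [f.symm_apply_apply] at this
  · exact fun h => h.map f

lemma ends_image (f : X ≃ₜ Y) : f '' {x : X | ¬ IsPass x} = {y : Y | ¬ IsPass y} := by
  ext y
  constructor
  · rintro ⟨x, hx, rfl⟩
    exact fun h => hx ((pass_map_iff f x).1 h)
  · intro hy
    refine ⟨f.symm y, ?_, f.apply_symm_apply y⟩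
    intro h
    exact hy (by have := h.map f; rwa [f.apply_symm_apply] at this)

lemma closure_ends_iff (f : X ≃ₜ Y) (x : X) :
    f x ∈ closure {y : Y | ¬ IsPass y} ↔ x ∈ closure {x : X | ¬ IsPass x} := by
  rw [← ends_image f, ← f.image_closure]
  exact f.injective.mem_set_image

open Classical in
/-- The type of a point. -/
noncomputable def ptType (x : X) : Fin 6 :=
  if IsRamificationPoint x then 0 else
    if IsNice x then (if IsPass x then 2 else 1) else
      if ¬ IsPass x then 3 else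
        if x ∈ closure {y : X | ¬ IsPass y} then 4 else 5

lemma ptType_map (f : X ≃ₜ Y) (x : X) : ptType (f x) = ptType x := by
  have h1 := ram_map_iff f x
  have h2 := nice_map_iff f x
  have h3 := pass_map_iff f x
  have h4 := closure_ends_iff f x
  unfold ptType
  by_cases a : IsRamificationPoint x
  · rw [if_pos a, if_pos (h1.2 a)]
  · rw [if_neg a, if_neg (fun h => a (h1.1 h))]
    by_cases b : IsNice x
    · rw [if_pos b, if_pos (h2.2 b)]
      by_cases e : IsPass x
      · rw [if_pos e, if_pos (h3.2 e)]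
      · rw [if_neg e, if_neg (fun h => e (h3.1 h))]
    · rw [if_neg b, if_neg (fun h => b (h2.1 h))]
      by_cases e : IsPass x
      · rw [if_neg (not_not.2 e), if_neg (not_not.2 (h3.2 e))]
        by_cases g : x ∈ closure {y : X | ¬ IsPass y}
        · rw [if_pos g, if_pos (h4.2 g)]
        · rw [if_neg g, if_neg (fun h => g (h4.1 h))]
      · rw [if_pos e, if_pos (fun h => e (h3.1 h))]

end Invariants

section OrderIsos

/-- The extension of an order isomorphism of the reals to the extended reals. -/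
noncomputable def liftE (e : ℝ ≃o ℝ) : EReal ≃o EReal := e.withTopCongr.withBotCongr

lemma liftE_coe (e : ℝ ≃o ℝ) (x : ℝ) : liftE e (x : EReal) = ((e x : ℝ) : EReal) := rfl

lemma liftE_top (e : ℝ ≃o ℝ) : liftE e ⊤ = ⊤ := (liftE e).map_top

/-- An order isomorphism moving `a < b` to `a' < b'`. -/
lemma exists_affine {a b a' b' : ℝ} (h : a < b) (h' : a' < b') :
    ∃ e : ℝ ≃o ℝ, e a = a' ∧ e b = b' := by
  have hm : 0 < (b' - a') / (b - a) := div_pos (by linarith) (by linarith)
  have hne : b - a ≠ 0 := by linarith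
  refine ⟨(OrderIso.mulRight₀ _ hm).trans (OrderIso.addRight (a' - a * ((b' - a') / (b - a)))),
    ?_, ?_⟩
  · show a * ((b' - a') / (b - a)) + (a' - a * ((b' - a') / (b - a))) = a'
    ring
  · show b * ((b' - a') / (b - a)) + (a' - a * ((b' - a') / (b - a))) = b'
    field_simp
    ring

/-- A Möbius map of the unit interval. -/
noncomputable def mob (l t : ℝ) : ℝ := l * t / (1 - t + l * t)

lemma mob_den {l t : ℝ} (hl : 0 < l) (h0 : 0 ≤ t) (h1 : t < 1) : 0 < 1 - t + l * t := by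
  have : 0 ≤ l * t := mul_nonneg hl.le h0
  linarith

lemma mob_nonneg {l t : ℝ} (hl : 0 < l) (h0 : 0 ≤ t) (h1 : t < 1) : 0 ≤ mob l t :=
  div_nonneg (mul_nonneg hl.le h0) (mob_den hl h0 h1).le

lemma mob_lt_one {l t : ℝ} (hl : 0 < l) (h0 : 0 ≤ t) (h1 : t < 1) : mob l t < 1 := by
  unfold mob
  rw [div_lt_one (mob_den hl h0 h1)]
  linarith

lemma mob_lt {l t t' : ℝ} (hl : 0 < l) (h0 : 0 ≤ t) (htt : t < t') (h1 : t' < 1) :
    mob l t < mob l t' := by
  unfold mob
  rw [div_lt_div_iff₀ (mob_den hl h0 (htt.trans h1)) (mob_den hl (h0.trans htt.le) h1)]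
  have : l * t < l * t' := mul_lt_mul_of_pos_left htt hl
  nlinarith

lemma mob_mob {l t : ℝ} (hl : 0 < l) (h0 : 0 ≤ t) (h1 : t < 1) : mob l (mob l⁻¹ t) = t := by
  have hd := mob_den (inv_pos.2 hl) h0 h1
  have hl' : l ≠ 0 := hl.ne'
  have h2 : 1 - mob l⁻¹ t + l * mob l⁻¹ t = 1 / (1 - t + l⁻¹ * t) := by
    unfold mob
    rw [eq_div_iff hd.ne']
    have : (l⁻¹ * t / (1 - t + l⁻¹ * t)) * (1 - t + l⁻¹ * t) = l⁻¹ * t := div_mul_cancel₀ _ hd.ne'
    have h3 : l * (l⁻¹ * t) = t := by rw [← mul_assoc, mul_inv_cancel₀ hl', one_mul]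
    linear_combination (l - 1) * this + h3
  show l * mob l⁻¹ t / (1 - mob l⁻¹ t + l * mob l⁻¹ t) = t
  rw [h2]
  unfold mob
  have h3 : l * (l⁻¹ * t / (1 - t + l⁻¹ * t)) = t / (1 - t + l⁻¹ * t) := by
    rw [← mul_div_assoc, ← mul_assoc, mul_inv_cancel₀ hl', one_mul]
  rw [h3]
  rw [div_div_div_cancel_right₀ hd.ne', div_one]

/-- The periodic extension. -/
noncomputable def perMap (l : ℝ) (d : ℤ) (t : ℝ) : ℝ := ((⌊t⌋ + d : ℤ) : ℝ) + mob l (Int.fract t)

lemma perMap_floor {l : ℝ} (hl : 0 < l) (d : ℤ) (t : ℝ) : ⌊perMap l d t⌋ = ⌊t⌋ + d := by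
  unfold perMap
  rw [Int.floor_intCast_add, Int.floor_eq_zero_iff.2
    ⟨mob_nonneg hl (Int.fract_nonneg t) (Int.fract_lt_one t),
      mob_lt_one hl (Int.fract_nonneg t) (Int.fract_lt_one t)⟩, add_zero]

lemma perMap_fract {l : ℝ} (hl : 0 < l) (d : ℤ) (t : ℝ) :
    Int.fract (perMap l d t) = mob l (Int.fract t) := by
  unfold Int.fract
  rw [perMap_floor hl]
  unfold perMap Int.fract
  ring

lemma perMap_strictMono {l : ℝ} (hl : 0 < l) (d : ℤ) : StrictMono (perMap l d) := by
  intro t t' h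
  rcases eq_or_lt_of_le (Int.floor_mono h.le) with h1 | h1
  · unfold perMap
    rw [h1]
    have h2 : Int.fract t < Int.fract t' := by
      unfold Int.fract
      rw [h1]
      linarith
    have := mob_lt hl (Int.fract_nonneg t) h2 (Int.fract_lt_one t')
    linarith
  · unfold perMap
    have h2 := mob_lt_one hl (Int.fract_nonneg t) (Int.fract_lt_one t)
    have h3 := mob_nonneg hl (Int.fract_nonneg t') (Int.fract_lt_one t')
    have h4 : ((⌊t⌋ + d : ℤ) : ℝ) + 1 ≤ ((⌊t'⌋ + d : ℤ) : ℝ) := by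
      have : ⌊t⌋ + d + 1 ≤ ⌊t'⌋ + d := by omega
      exact_mod_cast this
    linarith

lemma perMap_inv {l : ℝ} (hl : 0 < l) (d : ℤ) (t : ℝ) : perMap l d (perMap l⁻¹ (-d) t) = t := by
  have hl' : 0 < l⁻¹ := inv_pos.2 hl
  unfold perMap
  have h1 := perMap_floor hl' (-d) t
  have h2 := perMap_fract hl' (-d) t
  unfold perMap at h1 h2
  rw [h1, h2, mob_mob hl (Int.fract_nonneg t) (Int.fract_lt_one t)]
  have : ((⌊t⌋ + -d + d : ℤ) : ℝ) = (⌊t⌋ : ℝ) := by
    congr 1
    omega
  rw [this]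
  exact Int.floor_add_fract t

/-- The periodic extension as an order isomorphism. -/
noncomputable def perIso (l : ℝ) (hl : 0 < l) (d : ℤ) : ℝ ≃o ℝ :=
  (perMap_strictMono hl d).orderIsoOfRightInverse _ (perMap l⁻¹ (-d)) (perMap_inv hl d)

lemma perIso_apply (l : ℝ) (hl : 0 < l) (d : ℤ) (t : ℝ) : perIso l hl d t = perMap l d t := rfl

lemma perIso_int (l : ℝ) (hl : 0 < l) (d k : ℤ) : perIso l hl d (k : ℝ) = ((k + d : ℤ) : ℝ) := by
  rw [perIso_apply]
  unfold perMap
  rw [Int.floor_intCast, Int.fract_intCast]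
  unfold mob
  simp

/-- Non-integers can be moved to each other by a map that shifts the integers. -/
lemma exists_per {x x' : ℝ} (hx : Int.fract x ≠ 0) (hx' : Int.fract x' ≠ 0) :
    ∃ (e : ℝ ≃o ℝ) (d : ℤ), e x = x' ∧ ∀ k : ℤ, e (k : ℝ) = ((k + d : ℤ) : ℝ) := by
  have hu : 0 < Int.fract x := lt_of_le_of_ne (Int.fract_nonneg x) (Ne.symm hx)
  have hv : 0 < Int.fract x' := lt_of_le_of_ne (Int.fract_nonneg x') (Ne.symm hx')
  have hu1 : 0 < 1 - Int.fract x := by linarith [Int.fract_lt_one x]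
  have hv1 : 0 < 1 - Int.fract x' := by linarith [Int.fract_lt_one x']
  have hl : 0 < Int.fract x' * (1 - Int.fract x) / (Int.fract x * (1 - Int.fract x')) := by
    positivity
  refine ⟨perIso _ hl (⌊x'⌋ - ⌊x⌋), ⌊x'⌋ - ⌊x⌋, ?_, perIso_int _ hl _⟩
  rw [perIso_apply]
  unfold perMap
  have h1 : mob (Int.fract x' * (1 - Int.fract x) / (Int.fract x * (1 - Int.fract x')))
      (Int.fract x) = Int.fract x' := by
    unfold mob
    have h2 : Int.fract x' * (1 - Int.fract x) / (Int.fract x * (1 - Int.fract x')) *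
        Int.fract x = Int.fract x' * (1 - Int.fract x) / (1 - Int.fract x') := by
      field_simp
    rw [h2]
    have h3 : 1 - Int.fract x + Int.fract x' * (1 - Int.fract x) / (1 - Int.fract x') =
        (1 - Int.fract x) / (1 - Int.fract x') := by
      field_simp
      ring
    rw [h3]
    field_simp
  rw [h1]
  have h4 : ((⌊x⌋ + (⌊x'⌋ - ⌊x⌋) : ℤ) : ℝ) = (⌊x'⌋ : ℝ) := by
    congr 1
    omega
  rw [h4]
  exact Int.floor_add_fract x'

end OrderIsos

end Pool.Agent.MP2a55c9
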