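import Pool.Agent.Lib.MP_2a55c9_gt.Invariants

/-!
# The fans `X N`
-/

open Set Filter Topology OnePoint

namespace Pool.Agent.MP2a55c9

/-- The index set of the isolated legs converging to one limit leg. -/
abbrev Idx : Type := ℤ × ℕ

/-- The legs. -/
abbrev Leg (N : ℕ) : Type := Fin (N + 1) × OnePoint Idx

/-- The extended reals are order isomorphic to the unit interval. -/
noncomputable def eE : EReal ≃o unitInterval :=
  EReal.expOrderIso.trans ENNReal.orderIsoUnitIntervalBirational

/-- The height parameter of a leg. -/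
noncomputable def ht {N : ℕ} (j : Leg N) : EReal := j.2.elim ⊤ (fun a => ((a.1 : ℝ) : EReal))

/-- The small part of the slope of a leg. -/
noncomputable def rr (x : OnePoint Idx) : ℝ :=
  x.elim 0 (fun a => 1 / ((Encodable.encode a : ℝ) + 2))

/-- The slope of a leg. -/
noncomputable def cc {N : ℕ} (j : Leg N) : ℝ := ((j.1 : ℕ) : ℝ) + rr j.2

/-- The height of a leg. -/
noncomputable def hh {N : ℕ} (j : Leg N) : ℝ := (eE (ht j) : ℝ)

/-- The fans. -/
abbrev XX (N : ℕ) : Type := Fan (cc (N := N)) hh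

lemma ht_inf {N : ℕ} (i : Fin (N + 1)) : ht (N := N) (i, ∞) = ⊤ := rfl

lemma ht_coe {N : ℕ} (i : Fin (N + 1)) (a : Idx) :
    ht (N := N) (i, (a : OnePoint Idx)) = ((a.1 : ℝ) : EReal) := rfl

lemma eE_bot : (eE ⊥ : ℝ) = 0 := by
  rw [eE.map_bot]
  rfl

lemma eE_top : (eE ⊤ : ℝ) = 1 := by
  rw [eE.map_top]
  rfl

lemma eE_lt {x y : EReal} : (eE x : ℝ) < (eE y : ℝ) ↔ x < y := by
  rw [Subtype.coe_lt_coe, eE.lt_iff_lt]

lemma eE_le {x y : EReal} : (eE x : ℝ) ≤ (eE y : ℝ) ↔ x ≤ y := by
  rw [Subtype.coe_le_coe, eE.le_iff_le]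

lemma eE_inj {x y : EReal} : (eE x : ℝ) = (eE y : ℝ) ↔ x = y := by
  rw [Subtype.coe_inj, eE.injective.eq_iff]

lemma eE_eq_zero {x : EReal} : (eE x : ℝ) = 0 ↔ x = ⊥ := by
  rw [← eE_bot, eE_inj]

lemma eE_nonneg (x : EReal) : 0 ≤ (eE x : ℝ) := (eE x).2.1

lemma eE_cont : Continuous (fun x : EReal => (eE x : ℝ)) :=
  continuous_subtype_val.comp eE.continuous

lemma rr_nonneg (x : OnePoint Idx) : 0 ≤ rr x := by
  induction x using OnePoint.rec with
  | infty => exact le_refl _
  | coe a =>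
    show (0 : ℝ) ≤ 1 / ((Encodable.encode a : ℝ) + 2)
    positivity

lemma rr_le (x : OnePoint Idx) : rr x ≤ 1 / 2 := by
  induction x using OnePoint.rec with
  | infty => show (0 : ℝ) ≤ 1 / 2; norm_num
  | coe a =>
    show 1 / ((Encodable.encode a : ℝ) + 2) ≤ 1 / 2
    apply one_div_le_one_div_of_le (by norm_num)
    have : (0 : ℝ) ≤ (Encodable.encode a : ℝ) := Nat.cast_nonneg _
    linarith

lemma rr_inj : Function.Injective rr := by
  intro x y h
  induction x using OnePoint.rec with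
  | infty =>
    induction y using OnePoint.rec with
    | infty => rfl
    | coe b =>
      exfalso
      have h' : (0 : ℝ) = 1 / ((Encodable.encode b : ℝ) + 2) := h
      have : 0 < 1 / ((Encodable.encode b : ℝ) + 2) := by positivity
      linarith
  | coe a =>
    induction y using OnePoint.rec with
    | infty =>
      exfalso
      have h' : 1 / ((Encodable.encode a : ℝ) + 2) = 0 := h
      have : 0 < 1 / ((Encodable.encode a : ℝ) + 2) := by positivity
      linarith
    | coe b =>
      have h' : 1 / ((Encodable.encode a : ℝ) + 2) = 1 / ((Encodable.encode b : ℝ) + 2) := h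
      rw [one_div, one_div, inv_inj] at h'
      have h2 : (Encodable.encode a : ℝ) = (Encodable.encode b : ℝ) := by linarith
      have h3 : Encodable.encode a = Encodable.encode b := by exact_mod_cast h2
      rw [Encodable.encode_injective h3]

lemma rr_cont : Continuous rr := by
  rw [OnePoint.continuous_iff_from_discrete]
  show Tendsto (fun a : Idx => 1 / ((Encodable.encode a : ℝ) + 2)) cofinite (𝓝 0)
  have h1 : Tendsto (fun a : Idx => Encodable.encode a) cofinite atTop := by
    rw [← Nat.cofinite_eq_atTop]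
    exact Encodable.encode_injective.tendsto_cofinite
  have h2 : Tendsto (fun a : Idx => (Encodable.encode a : ℝ) + 2) cofinite atTop :=
    tendsto_atTop_add_const_right _ _ (tendsto_natCast_atTop_atTop.comp h1)
  simp only [one_div]
  exact tendsto_inv_atTop_zero.comp h2

lemma cc_inj {N : ℕ} : Function.Injective (cc (N := N)) := by
  rintro ⟨i, x⟩ ⟨i', x'⟩ h
  have h' : ((i : ℕ) : ℝ) + rr x = ((i' : ℕ) : ℝ) + rr x' := h
  have h1 := rr_nonneg x
  have h2 := rr_nonneg x'
  have h3 := rr_le x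
  have h4 := rr_le x'
  have h5 : (i : ℕ) < (i' : ℕ) + 1 := by
    have : ((i : ℕ) : ℝ) < ((i' : ℕ) : ℝ) + 1 := by linarith
    exact_mod_cast this
  have h6 : (i' : ℕ) < (i : ℕ) + 1 := by
    have : ((i' : ℕ) : ℝ) < ((i : ℕ) : ℝ) + 1 := by linarith
    exact_mod_cast this
  have h7 : (i : ℕ) = (i' : ℕ) := by omega
  have h8 : i = i' := Fin.ext h7
  subst h8
  have h9 : x = x' := rr_inj (by linarith)
  rw [h9]

lemma cc_cont {N : ℕ} : Continuous (cc (N := N)) := by
  unfold cc
  apply Continuous.add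
  · exact (continuous_of_discreteTopology (f := fun i : Fin (N + 1) => ((i : ℕ) : ℝ))).comp
      continuous_fst
  · exact rr_cont.comp continuous_snd

/-- The compact space above the fan. -/
abbrev KK (N : ℕ) : Type := {p : Leg N × EReal // p.2 ≤ ht p.1}

lemma isOpen_leg {N : ℕ} (i : Fin (N + 1)) (a : Idx) :
    IsOpen {((i, (a : OnePoint Idx)) : Leg N)} := by
  rw [← singleton_prod_singleton]
  apply (isOpen_discrete {i}).prod
  have : ({(a : OnePoint Idx)} : Set (OnePoint Idx)) = (fun b : Idx => (b : OnePoint Idx)) '' {a} := by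
    rw [image_singleton]
  rw [this]
  exact OnePoint.isOpenEmbedding_coe.isOpenMap _ (isOpen_discrete _)

lemma isClosed_KK (N : ℕ) : IsClosed {p : Leg N × EReal | p.2 ≤ ht p.1} := by
  have : {p : Leg N × EReal | p.2 ≤ ht p.1} = ⋂ (i : Fin (N + 1)) (a : Idx),
      ({p : Leg N × EReal | p.1 ∈ ({((i, (a : OnePoint Idx)) : Leg N)} : Set (Leg N))ᶜ} ∪
        {p : Leg N × EReal | p.2 ≤ ((a.1 : ℝ) : EReal)}) := by
    ext ⟨⟨i, x⟩, y⟩
    simp only [mem_iInter]
    constructor
    · intro h i' a'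
      by_cases h' : ((i, x) : Leg N) = (i', (a' : OnePoint Idx))
      · right
        show y ≤ ((a'.1 : ℝ) : EReal)
        have h2 : y ≤ ht ((i, x) : Leg N) := h
        rw [h'] at h2
        exact h2
      · left
        exact h'
    · intro h
      show y ≤ ht ((i, x) : Leg N)
      induction x using OnePoint.rec with
      | infty => rw [ht_inf]; exact le_top
      | coe a =>
        rcases h i a with h1 | h1
        · exact absurd rfl h1
        · exact h1
  rw [this]
  refine isClosed_iInter fun i => isClosed_iInter fun a => IsClosed.union ?_ ?_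
  · exact (isOpen_leg i a).isClosed_compl.preimage continuous_fst
  · exact isClosed_le continuous_snd continuous_const

instance (N : ℕ) : CompactSpace (KK N) :=
  isCompact_iff_compactSpace.1 (isClosed_KK N).isCompact

/-- The quotient map. -/
noncomputable def qq {N : ℕ} (p : KK N) : XX N :=
  ⟨((eE p.1.2 : ℝ) * cc p.1.1, (eE p.1.2 : ℝ)), p.1.1, eE_nonneg _, eE_le.2 p.2, rfl⟩

lemma qq_cont {N : ℕ} : Continuous (qq (N := N)) := by
  have h1 : Continuous (fun p : KK N => (eE p.1.2 : ℝ)) :=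
    eE_cont.comp (continuous_snd.comp continuous_subtype_val)
  have h2 : Continuous (fun p : KK N => cc p.1.1) :=
    cc_cont.comp (continuous_fst.comp continuous_subtype_val)
  exact Continuous.subtype_mk ((h1.mul h2).prodMk h1) _

lemma qq_surj {N : ℕ} : Function.Surjective (qq (N := N)) := by
  intro z
  obtain ⟨j, h0, h1, h2⟩ := z.2
  have hle : z.1.2 ≤ 1 := h1.trans (eE (ht j)).2.2
  refine ⟨⟨(j, eE.symm ⟨z.1.2, h0, hle⟩), ?_⟩, ?_⟩
  · show eE.symm ⟨z.1.2, h0, hle⟩ ≤ ht j
    rw [eE.symm_apply_le]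
    exact h1
  · apply Subtype.ext
    show ((eE (eE.symm ⟨z.1.2, h0, hle⟩) : ℝ) * cc j, (eE (eE.symm ⟨z.1.2, h0, hle⟩) : ℝ)) = z.1
    rw [eE.apply_symm_apply]
    exact Prod.ext h2.symm rfl

lemma hh_pos {N : ℕ} (j : Leg N) : 0 < hh j := by
  unfold hh
  rw [← eE_bot, eE_lt]
  obtain ⟨i, x⟩ := j
  induction x using OnePoint.rec with
  | infty => exact bot_lt_top
  | coe a => exact EReal.bot_lt_coe _

lemma dat (N : ℕ) : Data (cc (N := N)) hh where
  inj := cc_inj
  cnt := by
    have : Countable (OnePoint Idx) := inferInstanceAs (Countable (Option Idx))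
    infer_instance
  pos := hh_pos
  cpt := by
    have : fanSet (cc (N := N)) hh = range (fun p : KK N => (qq p).1) := by
      ext z
      constructor
      · intro hz
        obtain ⟨p, hp⟩ := qq_surj (⟨z, hz⟩ : XX N)
        exact ⟨p, congrArg Subtype.val hp⟩
      · rintro ⟨p, rfl⟩
        exact (qq p).2
    rw [this]
    exact isCompact_range (continuous_subtype_val.comp qq_cont)
  three := by
    refine ⟨(0, ∞), (0, ((0, 0) : Idx)), (0, ((0, 1) : Idx)), ?_, ?_, ?_⟩
    · intro h
      exact OnePoint.infty_ne_coe _ (congrArg Prod.snd h)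
    · intro h
      exact OnePoint.infty_ne_coe _ (congrArg Prod.snd h)
    · intro h
      have h1 : (((0, 0) : Idx) : OnePoint Idx) = (((0, 1) : Idx) : OnePoint Idx) :=
        congrArg Prod.snd h
      have h2 := OnePoint.coe_injective h1
      exact absurd (congrArg Prod.snd h2) (by norm_num)

theorem smooth_XX (N : ℕ) : IsSmoothFan (XX N) := isSmoothFan (dat N)

lemma qq_quot {N : ℕ} : IsQuotientMap (qq (N := N)) :=
  IsQuotientMap.of_surjective_continuous qq_surj qq_cont

lemma qq_onLeg {N : ℕ} (p : KK N) : OnLeg p.1.1 (qq p) := rfl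

lemma qq_top_iff {N : ℕ} (p : KK N) : qq p = (dat N).top ↔ p.1.2 = ⊥ := by
  rw [eq_top_iff (dat N)]
  exact eE_eq_zero

lemma qq_onLeg_iff {N : ℕ} (p : KK N) (h : p.1.2 ≠ ⊥) (j : Leg N) :
    OnLeg j (qq p) ↔ j = p.1.1 := by
  constructor
  · intro h'
    refine onLeg_unique (dat N) (z := qq p) ?_ h' (qq_onLeg p)
    intro h0
    exact h (eE_eq_zero.1 h0)
  · rintro rfl
    rfl

lemma qq_eq {N : ℕ} {p p' : KK N} (h : qq p = qq p') :
    p = p' ∨ (p.1.2 = ⊥ ∧ p'.1.2 = ⊥) := by
  by_cases hp : p.1.2 = ⊥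
  · right
    refine ⟨hp, ?_⟩
    rw [← qq_top_iff, ← h, qq_top_iff]
    exact hp
  · left
    have h1 : p'.1.1 = p.1.1 := (qq_onLeg_iff p hp _).1 (h ▸ qq_onLeg p')
    have h2 : (eE p.1.2 : ℝ) = (eE p'.1.2 : ℝ) := congrArg (fun z : XX N => z.1.2) h
    exact Subtype.ext (Prod.ext h1.symm (eE_inj.1 h2))

/-- The map of the fan induced by a map of `KK N`. -/
noncomputable def desc {N : ℕ} (g : KK N → KK N) (z : XX N) : XX N :=
  qq (g (Function.surjInv qq_surj z))

lemma desc_qq {N : ℕ} (g : KK N → KK N) (hg : ∀ p, p.1.2 = ⊥ → (g p).1.2 = ⊥) (p : KK N) :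
    desc g (qq p) = qq (g p) := by
  unfold desc
  rcases qq_eq (Function.surjInv_eq qq_surj (qq p)) with h | ⟨h1, h2⟩
  · rw [h]
  · rw [(qq_top_iff _).2 (hg _ h1), (qq_top_iff _).2 (hg _ h2)]

lemma desc_cont {N : ℕ} (g : KK N → KK N) (hg : ∀ p, p.1.2 = ⊥ → (g p).1.2 = ⊥)
    (hc : Continuous g) : Continuous (desc g) := by
  rw [qq_quot.continuous_iff]
  have : desc g ∘ qq = qq ∘ g := funext (desc_qq g hg)
  rw [this]
  exact qq_cont.comp hc

/-- Symmetries. -/
structure Sym (N : ℕ) where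
  /-- the permutation of the legs -/
  perm : Leg N ≃ₜ Leg N
  /-- the maps on the legs -/
  ord : Leg N → (EReal ≃o EReal)
  loc : IsLocallyConstant ord
  comp : ∀ j, ord j (ht j) = ht (perm j)

/-- The map of `KK N`. -/
noncomputable def Sym.fwd {N : ℕ} (S : Sym N) (p : KK N) : KK N :=
  ⟨(S.perm p.1.1, S.ord p.1.1 p.1.2), by
    show S.ord p.1.1 p.1.2 ≤ ht (S.perm p.1.1)
    rw [← S.comp]
    exact (S.ord p.1.1).monotone p.2⟩

/-- The inverse map of `KK N`. -/
noncomputable def Sym.bwd {N : ℕ} (S : Sym N) (p : KK N) : KK N :=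
  ⟨(S.perm.symm p.1.1, (S.ord (S.perm.symm p.1.1)).symm p.1.2), by
    show (S.ord (S.perm.symm p.1.1)).symm p.1.2 ≤ ht (S.perm.symm p.1.1)
    rw [OrderIso.symm_apply_le, S.comp, Homeomorph.apply_symm_apply]
    exact p.2⟩

lemma ord_cont {N : ℕ} {α : Leg N → (EReal ≃o EReal)} (h : IsLocallyConstant α) :
    Continuous (fun p : Leg N × EReal => α p.1 p.2) := by
  rw [continuous_iff_continuousAt]
  rintro ⟨j, x⟩
  have h1 : ∀ᶠ p : Leg N × EReal in 𝓝 (j, x), α p.1 = α j :=
    (continuous_fst.tendsto (j, x)).eventually (h.eventually_eq j)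
  have h2 : (fun p : Leg N × EReal => α j p.2) =ᶠ[𝓝 (j, x)] (fun p : Leg N × EReal => α p.1 p.2) := by
    filter_upwards [h1] with p hp
    rw [hp]
  exact ContinuousAt.congr ((α j).continuous.comp continuous_snd).continuousAt h2

lemma Sym.fwd_cont {N : ℕ} (S : Sym N) : Continuous S.fwd := by
  refine Continuous.subtype_mk (Continuous.prodMk ?_ ?_) _
  · exact S.perm.continuous.comp (continuous_fst.comp continuous_subtype_val)
  · exact (ord_cont S.loc).comp continuous_subtype_val

lemma Sym.bwd_cont {N : ℕ} (S : Sym N) : Continuous S.bwd := by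
  refine Continuous.subtype_mk (Continuous.prodMk ?_ ?_) _
  · exact S.perm.symm.continuous.comp (continuous_fst.comp continuous_subtype_val)
  · have h : IsLocallyConstant (fun j : Leg N => (S.ord (S.perm.symm j)).symm) :=
      (S.loc.comp_continuous S.perm.symm.continuous).comp (fun e => e.symm)
    exact (ord_cont h).comp continuous_subtype_val

/-- The homeomorphism of the fan. -/
noncomputable def Sym.homeo {N : ℕ} (S : Sym N) : XX N ≃ₜ XX N where
  toFun := desc S.fwd
  invFun := desc S.bwd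
  left_inv := by
    intro z
    obtain ⟨p, rfl⟩ := qq_surj z
    rw [desc_qq _ (fun p hp => by show S.ord p.1.1 p.1.2 = ⊥; rw [hp, OrderIso.map_bot]),
      desc_qq _ (fun p hp => by
        show (S.ord (S.perm.symm p.1.1)).symm p.1.2 = ⊥; rw [hp, OrderIso.map_bot])]
    congr 1
    apply Subtype.ext
    refine Prod.ext ?_ ?_
    · show S.perm.symm (S.perm p.1.1) = p.1.1
      rw [Homeomorph.symm_apply_apply]
    · show (S.ord (S.perm.symm (S.perm p.1.1))).symm (S.ord p.1.1 p.1.2) = p.1.2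
      rw [Homeomorph.symm_apply_apply, OrderIso.symm_apply_apply]
  right_inv := by
    intro z
    obtain ⟨p, rfl⟩ := qq_surj z
    rw [desc_qq _ (fun p hp => by
        show (S.ord (S.perm.symm p.1.1)).symm p.1.2 = ⊥; rw [hp, OrderIso.map_bot]),
      desc_qq _ (fun p hp => by show S.ord p.1.1 p.1.2 = ⊥; rw [hp, OrderIso.map_bot])]
    congr 1
    apply Subtype.ext
    refine Prod.ext ?_ ?_
    · show S.perm (S.perm.symm p.1.1) = p.1.1
      rw [Homeomorph.apply_symm_apply]
    · show S.ord (S.perm.symm p.1.1) ((S.ord (S.perm.symm p.1.1)).symm p.1.2) = p.1.2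
      rw [OrderIso.apply_symm_apply]
  continuous_toFun := desc_cont _ (fun p hp => by
    show S.ord p.1.1 p.1.2 = ⊥; rw [hp, OrderIso.map_bot]) S.fwd_cont
  continuous_invFun := desc_cont _ (fun p hp => by
    show (S.ord (S.perm.symm p.1.1)).symm p.1.2 = ⊥; rw [hp, OrderIso.map_bot]) S.bwd_cont

/-- The point with parameter `x` on leg `j`. -/
noncomputable def pp {N : ℕ} (j : Leg N) (x : EReal) (h : x ≤ ht j) : XX N := qq ⟨(j, x), h⟩

lemma Sym.homeo_pp {N : ℕ} (S : Sym N) (j : Leg N) (x : EReal) (h : x ≤ ht j) :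
    ∃ h', S.homeo (pp j x h) = pp (S.perm j) (S.ord j x) h' :=
  ⟨(S.fwd ⟨(j, x), h⟩).2, desc_qq _ (fun p hp => by
    show S.ord p.1.1 p.1.2 = ⊥; rw [hp, OrderIso.map_bot]) _⟩

end Pool.Agent.MP2a55c9
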