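import Pool.Agent.Lib.MP_2a55c9_gt.Model

/-!
# The orbits of the fans `X N`
-/

open Set Filter Topology OnePoint

namespace Pool.Agent.MP2a55c9

/-! ### The symmetries -/

section Swap

variable {N : ℕ}

lemma eventually_ne_pair {j j' l : Leg N} (h : l ≠ j) (h' : l ≠ j') :
    ∀ᶠ m in 𝓝 l, m ≠ j ∧ m ≠ j' :=
  Filter.inter_mem (isOpen_ne.mem_nhds h) (isOpen_ne.mem_nhds h')

open Classical in
lemma swap_cont {j j' : Leg N} (hj : IsOpen {j}) (hj' : IsOpen {j'}) :
    Continuous (Equiv.swap j j') := by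
  rw [continuous_iff_continuousAt]
  intro l
  by_cases h : l = j
  · subst h
    have : 𝓝 l = pure l := (isOpen_singleton_iff_nhds_eq_pure l).1 hj
    unfold ContinuousAt
    rw [this]
    exact tendsto_pure_nhds _ _
  · by_cases h' : l = j'
    · subst h'
      have : 𝓝 l = pure l := (isOpen_singleton_iff_nhds_eq_pure l).1 hj'
      unfold ContinuousAt
      rw [this]
      exact tendsto_pure_nhds _ _
    · have h2 : id =ᶠ[𝓝 l] (Equiv.swap j j') := by
        filter_upwards [eventually_ne_pair h h'] with m hm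
        rw [Equiv.swap_apply_of_ne_of_ne hm.1 hm.2]
        rfl
      exact ContinuousAt.congr continuousAt_id h2

open Classical in
/-- Swapping two isolated legs. -/
noncomputable def swapSym (j j' : Leg N) (hj : IsOpen {j}) (hj' : IsOpen {j'}) (hne : j ≠ j')
    (α : EReal ≃o EReal) (hα : α (ht j) = ht j') : Sym N where
  perm :=
    { toEquiv := Equiv.swap j j'
      continuous_toFun := swap_cont hj hj'
      continuous_invFun := by
        show Continuous (Equiv.swap j j').symm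
        rw [Equiv.symm_swap]
        exact swap_cont hj hj' }
  ord l := if l = j then α else if l = j' then α.symm else OrderIso.refl _
  loc := by
    rw [IsLocallyConstant.iff_eventually_eq]
    intro l
    by_cases h : l = j
    · subst h
      have : 𝓝 l = pure l := (isOpen_singleton_iff_nhds_eq_pure l).1 hj
      rw [this]
      exact rfl
    · by_cases h' : l = j'
      · subst h'
        have : 𝓝 l = pure l := (isOpen_singleton_iff_nhds_eq_pure l).1 hj'
        rw [this]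
        exact rfl
      · filter_upwards [eventually_ne_pair h h'] with m hm
        rw [if_neg hm.1, if_neg hm.2, if_neg h, if_neg h']
  comp l := by
    show (if l = j then α else if l = j' then α.symm else OrderIso.refl _) (ht l) =
      ht (Equiv.swap j j' l)
    by_cases h : l = j
    · subst h
      rw [if_pos rfl, Equiv.swap_apply_left]
      exact hα
    · by_cases h' : l = j'
      · subst h'
        rw [if_neg h, if_pos rfl, Equiv.swap_apply_right, ← hα, OrderIso.symm_apply_apply]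
      · rw [if_neg h, if_neg h', Equiv.swap_apply_of_ne_of_ne h h']
        rfl

lemma swapSym_perm (j j' : Leg N) (hj : IsOpen {j}) (hj' : IsOpen {j'}) (hne : j ≠ j')
    (α : EReal ≃o EReal) (hα : α (ht j) = ht j') : (swapSym j j' hj hj' hne α hα).perm j = j' := by
  classical
  show Equiv.swap j j' j = j'
  exact Equiv.swap_apply_left j j'

lemma swapSym_ord (j j' : Leg N) (hj : IsOpen {j}) (hj' : IsOpen {j'}) (hne : j ≠ j')
    (α : EReal ≃o EReal) (hα : α (ht j) = ht j') : (swapSym j j' hj hj' hne α hα).ord j = α := by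
  classical
  show (if j = j then α else if j = j' then α.symm else OrderIso.refl _) = α
  rw [if_pos rfl]

/-- Permuting the limit legs. -/
noncomputable def permSym (i i' : Fin (N + 1)) : Sym N where
  perm := ((Equiv.swap i i').toHomeomorphOfDiscrete).prodCongr (Homeomorph.refl _)
  ord _ := OrderIso.refl _
  loc := IsLocallyConstant.const _
  comp _ := rfl

/-- Shifting the heights. -/
noncomputable def shiftSym (e : ℝ ≃o ℝ) (d : ℤ) (h : ∀ k : ℤ, e (k : ℝ) = ((k + d : ℤ) : ℝ)) :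
    Sym N where
  perm := (Homeomorph.refl _).prodCongr
    ((((Equiv.addRight d).prodCongr (Equiv.refl ℕ)).toHomeomorphOfDiscrete).onePointCongr)
  ord _ := liftE e
  loc := IsLocallyConstant.const _
  comp j := by
    obtain ⟨i, x⟩ := j
    induction x using OnePoint.rec with
    | infty => exact liftE_top e
    | coe a =>
      show liftE e (((a.1 : ℤ) : ℝ) : EReal) = ((((a.1 + d : ℤ)) : ℝ) : EReal)
      rw [liftE_coe, h]

end Swap

/-- Being in the same orbit. -/
def Rel {N : ℕ} (x y : XX N) : Prop := ∃ f : XX N ≃ₜ XX N, f x = y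

lemma Rel.refl {N : ℕ} (x : XX N) : Rel x x := ⟨Homeomorph.refl _, rfl⟩

lemma Rel.symm {N : ℕ} {x y : XX N} (h : Rel x y) : Rel y x := by
  obtain ⟨f, rfl⟩ := h
  exact ⟨f.symm, f.symm_apply_apply x⟩

lemma Rel.trans {N : ℕ} {x y z : XX N} (h : Rel x y) (h' : Rel y z) : Rel x z := by
  obtain ⟨f, rfl⟩ := h
  obtain ⟨g, rfl⟩ := h'
  exact ⟨f.trans g, rfl⟩

lemma pp_congr {N : ℕ} {j j' : Leg N} {x x' : EReal} (hj : j = j') (hx : x = x') (h : x ≤ ht j)
    (h' : x' ≤ ht j') : pp j x h = pp j' x' h' := by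
  subst hj
  subst hx
  rfl

lemma rel_of_sym {N : ℕ} (S : Sym N) {j j' : Leg N} {x x' : EReal} (hj : S.perm j = j')
    (hx : S.ord j x = x') (h : x ≤ ht j) (h' : x' ≤ ht j') : Rel (pp j x h) (pp j' x' h') := by
  obtain ⟨h1, h2⟩ := S.homeo_pp j x h
  exact ⟨S.homeo, h2.trans (pp_congr hj hx _ _)⟩

lemma rel_swap {N : ℕ} {j j' : Leg N} (hj : IsOpen {j}) (hj' : IsOpen {j'}) (hne : j ≠ j')
    (α : EReal ≃o EReal) (hα : α (ht j) = ht j') {x x' : EReal} (hx : α x = x') (h : x ≤ ht j)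
    (h' : x' ≤ ht j') : Rel (pp j x h) (pp j' x' h') :=
  rel_of_sym (swapSym j j' hj hj' hne α hα) (swapSym_perm ..) (by rw [swapSym_ord]; exact hx) h h'

lemma rel_perm {N : ℕ} (i i' : Fin (N + 1)) (x : EReal) (h : x ≤ ht ((i, ∞) : Leg N))
    (h' : x ≤ ht ((i', ∞) : Leg N)) : Rel (pp (i, ∞) x h) (pp (i', ∞) x h') := by
  refine rel_of_sym (permSym i i') ?_ rfl h h'
  show ((Equiv.swap i i' i, ∞) : Leg N) = (i', ∞)
  rw [Equiv.swap_apply_left]

lemma rel_shift {N : ℕ} (i : Fin (N + 1)) (e : ℝ ≃o ℝ) (d : ℤ)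
    (he : ∀ k : ℤ, e (k : ℝ) = ((k + d : ℤ) : ℝ)) (x : ℝ)
    (h : (x : EReal) ≤ ht ((i, ∞) : Leg N)) (h' : ((e x : ℝ) : EReal) ≤ ht ((i, ∞) : Leg N)) :
    Rel (pp (i, ∞) (x : EReal) h) (pp (i, ∞) ((e x : ℝ) : EReal) h') :=
  rel_of_sym (shiftSym e d he) rfl rfl h h'

/-! ### Transitivity on the classes -/

lemma rel_iso_tip {N : ℕ} (i i' : Fin (N + 1)) (a a' : Idx)
    (h : ((a.1 : ℝ) : EReal) ≤ ht ((i, (a : OnePoint Idx)) : Leg N))
    (h' : ((a'.1 : ℝ) : EReal) ≤ ht ((i', (a' : OnePoint Idx)) : Leg N)) :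
    Rel (pp (i, (a : OnePoint Idx)) ((a.1 : ℝ) : EReal) h)
      (pp (i', (a' : OnePoint Idx)) ((a'.1 : ℝ) : EReal) h') := by
  by_cases hne : ((i, (a : OnePoint Idx)) : Leg N) = (i', (a' : OnePoint Idx))
  · have h1 : i = i' := congrArg Prod.fst hne
    have h2 : (a : OnePoint Idx) = (a' : OnePoint Idx) := congrArg Prod.snd hne
    have h3 : a = a' := OnePoint.coe_injective h2
    subst h1
    subst h3
    exact Rel.refl _
  · obtain ⟨e, he, -⟩ := exists_affine (a := (a.1 : ℝ)) (b := (a.1 : ℝ) + 1) (a' := (a'.1 : ℝ))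
      (b' := (a'.1 : ℝ) + 1) (by linarith) (by linarith)
    have h1 : liftE e ((a.1 : ℝ) : EReal) = ((a'.1 : ℝ) : EReal) := by rw [liftE_coe, he]
    exact rel_swap (isOpen_leg i a) (isOpen_leg i' a') hne (liftE e) h1 h1 h h'

lemma rel_iso_int_ne {N : ℕ} (i i' : Fin (N + 1)) (a a' : Idx) (x x' : ℝ) (hx : x < a.1)
    (hx' : x' < a'.1) (hne : ((i, (a : OnePoint Idx)) : Leg N) ≠ (i', (a' : OnePoint Idx)))
    (h : (x : EReal) ≤ ht ((i, (a : OnePoint Idx)) : Leg N))
    (h' : (x' : EReal) ≤ ht ((i', (a' : OnePoint Idx)) : Leg N)) :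
    Rel (pp (i, (a : OnePoint Idx)) (x : EReal) h)
      (pp (i', (a' : OnePoint Idx)) (x' : EReal) h') := by
  obtain ⟨e, he, he'⟩ := exists_affine hx hx'
  have h1 : liftE e ((a.1 : ℝ) : EReal) = ((a'.1 : ℝ) : EReal) := by rw [liftE_coe, he']
  have h2 : liftE e (x : EReal) = (x' : EReal) := by rw [liftE_coe, he]
  exact rel_swap (isOpen_leg i a) (isOpen_leg i' a') hne (liftE e) h1 h2 h h'

lemma rel_iso_int {N : ℕ} (i i' : Fin (N + 1)) (a a' : Idx) (x x' : ℝ) (hx : x < a.1)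
    (hx' : x' < a'.1)
    (h : (x : EReal) ≤ ht ((i, (a : OnePoint Idx)) : Leg N))
    (h' : (x' : EReal) ≤ ht ((i', (a' : OnePoint Idx)) : Leg N)) :
    Rel (pp (i, (a : OnePoint Idx)) (x : EReal) h)
      (pp (i', (a' : OnePoint Idx)) (x' : EReal) h') := by
  let b : Idx := (0, a.2 + a'.2 + 1)
  have hb : a ≠ b := by
    intro hab
    have : a.2 = a.2 + a'.2 + 1 := congrArg Prod.snd hab
    omega
  have hb' : b ≠ a' := by
    intro hab
    have : a.2 + a'.2 + 1 = a'.2 := congrArg Prod.snd hab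
    omega
  have hx0 : (-1 : ℝ) < (b.1 : ℝ) := by
    show (-1 : ℝ) < (((0 : ℤ)) : ℝ)
    norm_num
  have h0 : ((-1 : ℝ) : EReal) ≤ ht ((i, (b : OnePoint Idx)) : Leg N) := by
    rw [ht_coe]
    exact EReal.coe_le_coe_iff.2 hx0.le
  refine (rel_iso_int_ne i i a b x (-1) hx hx0 ?_ h h0).trans
    (rel_iso_int_ne i i' b a' (-1) x' hx0 hx' ?_ h0 h')
  · intro h1
    exact hb (OnePoint.coe_injective (congrArg Prod.snd h1))
  · intro h1
    exact hb' (OnePoint.coe_injective (congrArg Prod.snd h1))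

lemma rel_lim_int {N : ℕ} (i i' : Fin (N + 1)) (k k' : ℤ)
    (h : ((k : ℝ) : EReal) ≤ ht ((i, ∞) : Leg N)) (h' : ((k' : ℝ) : EReal) ≤ ht ((i', ∞) : Leg N)) :
    Rel (pp (i, ∞) ((k : ℝ) : EReal) h) (pp (i', ∞) ((k' : ℝ) : EReal) h') := by
  have he := perIso_int 1 one_pos (k' - k)
  have h1 := rel_shift i (perIso 1 one_pos (k' - k)) (k' - k) he (k : ℝ) h (by rw [ht_inf]; exact le_top)
  refine h1.trans ?_
  have h2 : perIso 1 one_pos (k' - k) (k : ℝ) = (k' : ℝ) := by
    rw [he]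
    congr 1
    omega
  have h3 := rel_perm i i' ((perIso 1 one_pos (k' - k) (k : ℝ) : ℝ) : EReal)
    (by rw [ht_inf]; exact le_top) (by rw [ht_inf]; exact le_top)
  refine h3.trans ?_
  rw [pp_congr rfl (by rw [h2]) _ h']
  exact Rel.refl _

lemma rel_lim_gen {N : ℕ} (i i' : Fin (N + 1)) (x x' : ℝ) (hx : Int.fract x ≠ 0)
    (hx' : Int.fract x' ≠ 0)
    (h : (x : EReal) ≤ ht ((i, ∞) : Leg N)) (h' : (x' : EReal) ≤ ht ((i', ∞) : Leg N)) :
    Rel (pp (i, ∞) (x : EReal) h) (pp (i', ∞) (x' : EReal) h') := by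
  obtain ⟨e, d, he, hd⟩ := exists_per hx hx'
  have h1 := rel_shift i e d hd x h (by rw [ht_inf]; exact le_top)
  refine h1.trans ?_
  have h3 := rel_perm i i' ((e x : ℝ) : EReal)
    (by rw [ht_inf]; exact le_top) (by rw [ht_inf]; exact le_top)
  refine h3.trans ?_
  rw [pp_congr rfl (by rw [he]) _ h']
  exact Rel.refl _

/-! ### The invariants -/

lemma ram_pp {N : ℕ} (j : Leg N) (x : EReal) (h : x ≤ ht j) :
    IsRamificationPoint (pp j x h) ↔ x = ⊥ := by
  rw [ram_iff (dat N)]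
  exact qq_top_iff _

lemma pass_pp {N : ℕ} (j : Leg N) (x : EReal) (h : x ≤ ht j) (hx : x ≠ ⊥) :
    ¬ IsPass (pp j x h) ↔ x = ht j := by
  rw [pass_iff (dat N), not_not]
  constructor
  · rintro ⟨j', hj', hj2⟩
    have h1 : j' = j := (qq_onLeg_iff ⟨(j, x), h⟩ hx j').1 hj'
    subst h1
    exact eE_inj.1 hj2
  · intro h1
    refine ⟨j, qq_onLeg _, ?_⟩
    show (eE x : ℝ) = hh j
    rw [h1]
    rfl

lemma nice_iso {N : ℕ} (i : Fin (N + 1)) (a : Idx) (x : EReal)
    (h : x ≤ ht ((i, (a : OnePoint Idx)) : Leg N)) (hx : x ≠ ⊥) :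
    IsNice (pp (i, (a : OnePoint Idx)) x h) := by
  set j : Leg N := (i, (a : OnePoint Idx)) with hj
  refine ⟨{w : XX N | OnLeg j w ∧ w ≠ (dat N).top}, ?_, ?_, ?_⟩
  · have hopen : IsOpen {w : XX N | OnLeg j w ∧ w ≠ (dat N).top} := by
      rw [← qq_quot.isOpen_preimage]
      have : qq ⁻¹' {w : XX N | OnLeg j w ∧ w ≠ (dat N).top} =
          {p : KK N | p.1.1 ∈ ({j} : Set (Leg N))} ∩ {p : KK N | p.1.2 ≠ ⊥} := by
        ext p
        constructor
        · rintro ⟨h1, h2⟩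
          have h3 : p.1.2 ≠ ⊥ := fun h4 => h2 ((qq_top_iff p).2 h4)
          exact ⟨((qq_onLeg_iff p h3 j).1 h1).symm, h3⟩
        · rintro ⟨h1, h2⟩
          exact ⟨(qq_onLeg_iff p h2 j).2 (mem_singleton_iff.1 h1).symm,
            fun h3 => h2 ((qq_top_iff p).1 h3)⟩
      rw [this]
      apply IsOpen.inter
      · exact (isOpen_leg i a).preimage (continuous_fst.comp continuous_subtype_val)
      · exact isOpen_ne.preimage (continuous_snd.comp continuous_subtype_val)
    exact hopen.mem_nhds ⟨qq_onLeg _, fun h3 => hx ((qq_top_iff _).1 h3)⟩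
  · apply isPreconnected_of_forall (pp j (ht j) le_rfl)
    rintro w ⟨hw, hwt⟩
    have hw0 : 0 < w.1.2 := height_pos (dat N) w hwt
    have hwH : w.1.2 ≤ hh j := onLeg_le (dat N) hw0.ne' hw
    refine ⟨{z : XX N | OnLeg j z ∧ z.1.2 ∈ Icc w.1.2 (hh j)}, ?_, ?_, ?_,
      legSeg_preconnected j hw0.le le_rfl⟩
    · rintro z ⟨hz, hz2⟩
      refine ⟨hz, ?_⟩
      intro h3
      have := (eq_top_iff (dat N) z).1 h3
      have := hz2.1
      linarith
    · exact ⟨qq_onLeg _, hwH, le_rfl⟩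
    · exact ⟨hw, le_rfl, hwH⟩
  · rintro v ⟨-, hv⟩ hr
    exact hv ((ram_iff (dat N) v).1 hr)

/-- Sequences converging to a point of a limit leg. -/
lemma tendsto_lim {N : ℕ} (i : Fin (N + 1)) (a : ℕ → Idx) (ha : Function.Injective a)
    (y : ℕ → EReal) (x : EReal) (hy : Tendsto y atTop (𝓝 x))
    (hle : ∀ n, y n ≤ ht ((i, (a n : OnePoint Idx)) : Leg N)) (h : x ≤ ht ((i, ∞) : Leg N)) :
    Tendsto (fun n => (pp (i, (a n : OnePoint Idx)) (y n) (hle n) : XX N)) atTop
      (𝓝 (pp (i, ∞) x h)) := by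
  have h1 : Tendsto (fun n => (a n : OnePoint Idx)) atTop (𝓝 ∞) := by
    have h2 := (OnePoint.continuous_iff_from_discrete (X := Idx) (id : OnePoint Idx → OnePoint Idx)).1
      continuous_id
    have h3 : Tendsto a atTop cofinite := by
      rw [← Nat.cofinite_eq_atTop]
      exact ha.tendsto_cofinite
    exact h2.comp h3
  have h4 : Tendsto (fun n => (⟨((i, (a n : OnePoint Idx)), y n), hle n⟩ : KK N)) atTop
      (𝓝 ⟨((i, ∞), x), h⟩) := by
    rw [tendsto_subtype_rng]
    exact (tendsto_const_nhds.prodMk_nhds h1).prodMk_nhds hy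
  exact (qq_cont.tendsto _).comp h4

lemma not_nice_lim {N : ℕ} (i : Fin (N + 1)) (x : EReal) (h : x ≤ ht ((i, ∞) : Leg N))
    (hx : x ≠ ⊥) : ¬ IsNice (pp (i, ∞) x h) := by
  rintro ⟨V, hV, hp, hr⟩
  have htop : (dat N).top ∉ V := fun h1 => hr _ h1 ((ram_iff (dat N) _).2 rfl)
  have hmem : pp (i, ∞) x h ∈ V := mem_of_mem_nhds hV
  have key : ∀ (a : ℕ → Idx) (_ : Function.Injective a) (y : ℕ → EReal)
      (_ : Tendsto y atTop (𝓝 x)) (_ : ∀ n, y n ≤ ht ((i, (a n : OnePoint Idx)) : Leg N))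
      (_ : ∀ n, y n ≠ ⊥), False := by
    intro a ha y hy hle hyb
    have h1 := (tendsto_lim i a ha y x hy hle h).eventually hV
    obtain ⟨n, hn⟩ := h1.exists
    have h2 : OnLeg ((i, ∞) : Leg N) (pp (i, (a n : OnePoint Idx)) (y n) (hle n) : XX N) :=
      single_leg (dat N) hp htop hmem hn (qq_onLeg _)
    have h3 := (qq_onLeg_iff ⟨((i, (a n : OnePoint Idx)), y n), hle n⟩ (hyb n) _).1 h2
    exact OnePoint.infty_ne_coe _ (congrArg Prod.snd h3)
  by_cases hxt : x = ⊤
  · subst hxt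
    refine key (fun n => ((n : ℤ), 0)) ?_ (fun n => (((n : ℤ) : ℝ) : EReal)) ?_ ?_ ?_
    · intro m n hmn
      have : (m : ℤ) = (n : ℤ) := congrArg Prod.fst hmn
      exact_mod_cast this
    · apply EReal.tendsto_coe_nhds_top_iff.2
      have : (fun n : ℕ => (((n : ℤ)) : ℝ)) = fun n : ℕ => (n : ℝ) := by
        funext n
        exact Int.cast_natCast n
      rw [this]
      exact tendsto_natCast_atTop_atTop
    · intro n
      exact le_rfl
    · intro n
      exact EReal.coe_ne_bot _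
  · obtain ⟨r, rfl⟩ : ∃ r : ℝ, x = (r : EReal) := ⟨x.toReal, (EReal.coe_toReal hxt hx).symm⟩
    refine key (fun n => (⌈r⌉, n)) ?_ (fun _ => (r : EReal)) tendsto_const_nhds ?_ ?_
    · intro m n hmn
      exact congrArg Prod.snd hmn
    · intro n
      rw [ht_coe]
      exact EReal.coe_le_coe_iff.2 (Int.le_ceil r)
    · intro n
      exact EReal.coe_ne_bot _

lemma closure_lim {N : ℕ} (i : Fin (N + 1)) (k : ℤ)
    (h : ((k : ℝ) : EReal) ≤ ht ((i, ∞) : Leg N)) :
    pp (i, ∞) ((k : ℝ) : EReal) h ∈ closure {y : XX N | ¬ IsPass y} := by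
  have h1 := tendsto_lim i (fun n => ((k, n) : Idx)) (fun m n hmn => congrArg Prod.snd hmn)
    (fun _ => ((k : ℝ) : EReal)) ((k : ℝ) : EReal) tendsto_const_nhds (fun n => le_rfl) h
  apply mem_closure_of_tendsto h1
  apply Eventually.of_forall
  intro n
  show ¬ IsPass _
  rw [pass_pp _ _ _ (EReal.coe_ne_bot _)]
  rfl

lemma not_closure_lim {N : ℕ} (i : Fin (N + 1)) (x : ℝ) (hx : Int.fract x ≠ 0)
    (h : (x : EReal) ≤ ht ((i, ∞) : Leg N)) :
    pp (i, ∞) (x : EReal) h ∉ closure {y : XX N | ¬ IsPass y} := by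
  intro hcl
  rw [mem_closure_iff] at hcl
  have hopen : IsOpen {z : XX N | z.1.2 ∈ Ioo (eE (((⌊x⌋ : ℤ) : ℝ) : EReal) : ℝ)
      (eE (((⌊x⌋ + 1 : ℤ) : ℝ) : EReal) : ℝ)} :=
    isOpen_Ioo.preimage (continuous_snd.comp continuous_subtype_val)
  have hlt : ((⌊x⌋ : ℤ) : ℝ) < x := by
    have h1 : 0 < Int.fract x := lt_of_le_of_ne (Int.fract_nonneg x) (Ne.symm hx)
    have h2 := Int.self_sub_floor x
    linarith
  have hlt' : x < ((⌊x⌋ + 1 : ℤ) : ℝ) := by
    push_cast
    exact Int.lt_floor_add_one x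
  obtain ⟨z, hz, hzp⟩ := hcl _ hopen
    ⟨eE_lt.2 (EReal.coe_lt_coe_iff.2 hlt), eE_lt.2 (EReal.coe_lt_coe_iff.2 hlt')⟩
  obtain ⟨p, rfl⟩ := qq_surj z
  obtain ⟨⟨j, y⟩, hp⟩ := p
  obtain ⟨hz1, hz2⟩ := hz
  have hz1' : (((⌊x⌋ : ℤ) : ℝ) : EReal) < y := eE_lt.1 hz1
  have hz2' : y < (((⌊x⌋ + 1 : ℤ) : ℝ) : EReal) := eE_lt.1 hz2
  have hy : y ≠ ⊥ := fun h0 => by
    rw [h0] at hz1'
    exact not_lt_bot hz1'
  have hyj : y = ht j := (pass_pp j y hp hy).1 hzp
  obtain ⟨i', w⟩ := j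
  induction w using OnePoint.rec with
  | infty =>
    rw [ht_inf] at hyj
    rw [hyj] at hz2'
    exact not_top_lt hz2'
  | coe a =>
    rw [ht_coe] at hyj
    rw [hyj] at hz1' hz2'
    have h1 : ⌊x⌋ < a.1 := by
      have := EReal.coe_lt_coe_iff.1 hz1'
      exact_mod_cast this
    have h2 : a.1 < ⌊x⌋ + 1 := by
      have := EReal.coe_lt_coe_iff.1 hz2'
      exact_mod_cast this
    omega

/-! ### The representatives -/

/-- The representatives of the orbits. -/
noncomputable def rep (N : ℕ) (n : Fin 6) : XX N :=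
  if n = 0 then (dat N).top
  else if n = 1 then pp (0, (((0, 0) : Idx) : OnePoint Idx)) (((0 : ℤ) : ℝ) : EReal) le_rfl
  else if n = 2 then pp (0, (((0, 0) : Idx) : OnePoint Idx)) (((-1 : ℝ)) : EReal) (by
    rw [ht_coe]; apply EReal.coe_le_coe_iff.2; norm_num)
  else if n = 3 then pp (0, ∞) ⊤ le_rfl
  else if n = 4 then pp (0, ∞) (((0 : ℤ) : ℝ) : EReal) le_top
  else pp (0, ∞) (((1 / 2 : ℝ)) : EReal) le_top

lemma type_top (N : ℕ) : ptType (dat N).top = 0 := by
  unfold ptType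
  rw [if_pos ((ram_iff (dat N) _).2 rfl)]

lemma type_iso {N : ℕ} (i : Fin (N + 1)) (a : Idx) (x : EReal)
    (h : x ≤ ht ((i, (a : OnePoint Idx)) : Leg N)) (hx : x ≠ ⊥) :
    (x = ((a.1 : ℝ) : EReal) → ptType (pp (i, (a : OnePoint Idx)) x h) = 1) ∧
      (x ≠ ((a.1 : ℝ) : EReal) → ptType (pp (i, (a : OnePoint Idx)) x h) = 2) := by
  have h1 : ¬ IsRamificationPoint (pp (i, (a : OnePoint Idx)) x h) := fun h2 => hx ((ram_pp _ _ _).1 h2)
  have h2 := nice_iso i a x h hx
  constructor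
  · intro h3
    have h4 : ¬ IsPass (pp (i, (a : OnePoint Idx)) x h) := (pass_pp _ _ _ hx).2 h3
    unfold ptType
    rw [if_neg h1, if_pos h2, if_neg h4]
  · intro h3
    have h4 : IsPass (pp (i, (a : OnePoint Idx)) x h) := by
      by_contra h5
      exact h3 ((pass_pp _ _ _ hx).1 h5)
    unfold ptType
    rw [if_neg h1, if_pos h2, if_pos h4]

lemma type_lim_top {N : ℕ} (i : Fin (N + 1)) (h : ⊤ ≤ ht ((i, ∞) : Leg N)) :
    ptType (pp (i, ∞) ⊤ h) = 3 := by
  have hx : (⊤ : EReal) ≠ ⊥ := top_ne_bot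
  have h1 : ¬ IsRamificationPoint (pp (i, ∞) ⊤ h) := fun h2 => hx ((ram_pp _ _ _).1 h2)
  have h2 := not_nice_lim i ⊤ h hx
  have h4 : ¬ IsPass (pp (i, ∞) ⊤ h) := (pass_pp _ _ _ hx).2 rfl
  unfold ptType
  rw [if_neg h1, if_neg h2, if_pos h4]

lemma type_lim_int {N : ℕ} (i : Fin (N + 1)) (k : ℤ) (h : ((k : ℝ) : EReal) ≤ ht ((i, ∞) : Leg N)) :
    ptType (pp (i, ∞) ((k : ℝ) : EReal) h) = 4 := by
  have hx : ((k : ℝ) : EReal) ≠ ⊥ := EReal.coe_ne_bot _
  have h1 : ¬ IsRamificationPoint (pp (i, ∞) ((k : ℝ) : EReal) h) :=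
    fun h2 => hx ((ram_pp _ _ _).1 h2)
  have h2 := not_nice_lim i ((k : ℝ) : EReal) h hx
  have h4 : ¬ ¬ IsPass (pp (i, ∞) ((k : ℝ) : EReal) h) := by
    intro h5
    have := (pass_pp _ _ _ hx).1 h5
    rw [ht_inf] at this
    exact EReal.coe_ne_top _ this
  unfold ptType
  rw [if_neg h1, if_neg h2, if_neg h4, if_pos (closure_lim i k h)]

lemma type_lim_gen {N : ℕ} (i : Fin (N + 1)) (x : ℝ) (hx' : Int.fract x ≠ 0)
    (h : (x : EReal) ≤ ht ((i, ∞) : Leg N)) :
    ptType (pp (i, ∞) (x : EReal) h) = 5 := by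
  have hx : (x : EReal) ≠ ⊥ := EReal.coe_ne_bot _
  have h1 : ¬ IsRamificationPoint (pp (i, ∞) (x : EReal) h) :=
    fun h2 => hx ((ram_pp _ _ _).1 h2)
  have h2 := not_nice_lim i (x : EReal) h hx
  have h4 : ¬ ¬ IsPass (pp (i, ∞) (x : EReal) h) := by
    intro h5
    have := (pass_pp _ _ _ hx).1 h5
    rw [ht_inf] at this
    exact EReal.coe_ne_top _ this
  unfold ptType
  rw [if_neg h1, if_neg h2, if_neg h4, if_neg (not_closure_lim i x hx' h)]

lemma fract_half : Int.fract (1 / 2 : ℝ) ≠ 0 := by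
  rw [Int.fract_eq_self.2 ⟨by norm_num, by norm_num⟩]
  norm_num

lemma rel_rep {N : ℕ} (z : XX N) : Rel z (rep N (ptType z)) := by
  obtain ⟨p, rfl⟩ := qq_surj z
  obtain ⟨⟨⟨i, w⟩, x⟩, hp⟩ := p
  by_cases hx : x = ⊥
  · have h1 : qq (⟨((i, w), x), hp⟩ : KK N) = (dat N).top := (qq_top_iff _).2 hx
    rw [h1, type_top]
    exact Rel.refl _
  · show Rel (pp (i, w) x hp) (rep N (ptType (pp (i, w) x hp)))
    induction w using OnePoint.rec with
    | coe a =>
      by_cases h1 : x = ((a.1 : ℝ) : EReal)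
      · rw [(type_iso i a x hp hx).1 h1]
        subst h1
        exact rel_iso_tip i 0 a (0, 0) _ _
      · rw [(type_iso i a x hp hx).2 h1]
        have hxt : x ≠ ⊤ := by
          rintro rfl
          rw [ht_coe] at hp
          exact EReal.coe_ne_top _ (top_le_iff.1 hp)
        obtain ⟨r, rfl⟩ : ∃ r : ℝ, x = (r : EReal) := ⟨x.toReal, (EReal.coe_toReal hxt hx).symm⟩
        have hr : r < (a.1 : ℝ) := by
          have := lt_of_le_of_ne hp h1
          exact EReal.coe_lt_coe_iff.1 this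
        exact rel_iso_int i 0 a (0, 0) r (-1) hr (by norm_num) _ _
    | infty =>
      by_cases hxt : x = ⊤
      · subst hxt
        rw [type_lim_top]
        exact rel_perm i 0 ⊤ _ _
      · obtain ⟨r, rfl⟩ : ∃ r : ℝ, x = (r : EReal) := ⟨x.toReal, (EReal.coe_toReal hxt hx).symm⟩
        by_cases hr : Int.fract r = 0
        · have hr' : r = ((⌊r⌋ : ℤ) : ℝ) := by
            have := Int.self_sub_floor r
            rw [hr] at this
            linarith
          have h2 : pp (i, ∞) (r : EReal) hp = pp (i, ∞) (((⌊r⌋ : ℤ) : ℝ) : EReal) le_top :=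
            pp_congr rfl (congrArg _ hr') _ _
          rw [h2, type_lim_int]
          exact rel_lim_int i 0 ⌊r⌋ 0 _ _
        · rw [type_lim_gen i r hr]
          exact rel_lim_gen i 0 r (1 / 2) hr fract_half _ _

lemma type_rep (N : ℕ) (n : Fin 6) : ptType (rep N n) = n := by
  have h0 : rep N 0 = (dat N).top := rfl
  have h1 : rep N 1 = pp (0, (((0, 0) : Idx) : OnePoint Idx)) (((0 : ℤ) : ℝ) : EReal) le_rfl := rfl
  have h2 : rep N 2 = pp (0, (((0, 0) : Idx) : OnePoint Idx)) (((-1 : ℝ)) : EReal) (by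
    rw [ht_coe]; apply EReal.coe_le_coe_iff.2; norm_num) := rfl
  have h3 : rep N 3 = pp (0, ∞) ⊤ le_rfl := rfl
  have h4 : rep N 4 = pp (0, ∞) (((0 : ℤ) : ℝ) : EReal) le_top := rfl
  have h5 : rep N 5 = pp (0, ∞) (((1 / 2 : ℝ)) : EReal) le_top := rfl
  fin_cases n
  · show ptType (rep N 0) = 0
    rw [h0]; exact type_top N
  · show ptType (rep N 1) = 1
    rw [h1]; exact (type_iso _ _ _ _ (EReal.coe_ne_bot _)).1 rfl
  · show ptType (rep N 2) = 2
    rw [h2]
    refine (type_iso _ _ _ _ (EReal.coe_ne_bot _)).2 ?_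
    intro h
    have := EReal.coe_eq_coe_iff.1 h
    norm_num at this
  · show ptType (rep N 3) = 3
    rw [h3]; exact type_lim_top _ _
  · show ptType (rep N 4) = 4
    rw [h4]; exact type_lim_int _ _ _
  · show ptType (rep N 5) = 5
    rw [h5]; exact type_lim_gen _ _ fract_half _

theorem degree_XX (N : ℕ) : homogeneityDegree (XX N) = 6 := by
  unfold homogeneityDegree
  have hinv : ∀ x y : XX N, (∃ f : XX N ≃ₜ XX N, f x = y) → ptType x = ptType y := by
    rintro x y ⟨f, rfl⟩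
    exact (ptType_map f x).symm
  let T : Quot (fun x y : XX N => ∃ f : XX N ≃ₜ XX N, f x = y) → Fin 6 := Quot.lift ptType hinv
  have hT : Function.Bijective T := by
    constructor
    · intro a b hab
      induction a using Quot.ind with
      | mk x =>
        induction b using Quot.ind with
        | mk y =>
          have h1 : ptType x = ptType y := hab
          apply Quot.sound
          have h2 : Rel x y := (rel_rep x).trans (h1 ▸ (rel_rep y).symm)
          exact h2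
    · intro n
      exact ⟨Quot.mk _ (rep N n), type_rep N n⟩
  rw [Nat.card_congr (Equiv.ofBijective T hT), Nat.card_eq_fintype_card, Fintype.card_fin]

lemma lim_tips (N : ℕ) : {z : XX N | ptType z = 3} =
    range (fun i : Fin (N + 1) => (pp (i, ∞) ⊤ le_rfl : XX N)) := by
  ext z
  constructor
  · intro hz
    obtain ⟨p, rfl⟩ := qq_surj z
    obtain ⟨⟨⟨i, w⟩, x⟩, hp⟩ := p
    have hz' : ptType (pp (i, w) x hp) = 3 := hz
    by_cases hx : x = ⊥
    · have h1 : pp (i, w) x hp = (dat N).top := (qq_top_iff _).2 hx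
      rw [h1, type_top] at hz'
      exact absurd hz' (by decide)
    · induction w using OnePoint.rec with
      | coe a =>
        exfalso
        by_cases h1 : x = ((a.1 : ℝ) : EReal)
        · rw [(type_iso i a x hp hx).1 h1] at hz'
          exact absurd hz' (by decide)
        · rw [(type_iso i a x hp hx).2 h1] at hz'
          exact absurd hz' (by decide)
      | infty =>
        by_cases hxt : x = ⊤
        · subst hxt
          exact ⟨i, rfl⟩
        · exfalso
          obtain ⟨r, rfl⟩ : ∃ r : ℝ, x = (r : EReal) := ⟨x.toReal, (EReal.coe_toReal hxt hx).symm⟩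
          by_cases hr : Int.fract r = 0
          · have hr' : r = ((⌊r⌋ : ℤ) : ℝ) := by
              have := Int.self_sub_floor r
              rw [hr] at this
              linarith
            have h2 : pp (i, ∞) (r : EReal) hp = pp (i, ∞) (((⌊r⌋ : ℤ) : ℝ) : EReal) le_top :=
              pp_congr rfl (congrArg _ hr') _ _
            rw [h2, type_lim_int] at hz'
            exact absurd hz' (by decide)
          · rw [type_lim_gen i r hr] at hz'
            exact absurd hz' (by decide)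
  · rintro ⟨i, rfl⟩
    exact type_lim_top _ _

lemma ncard_tips (N : ℕ) : {z : XX N | ptType z = 3}.ncard = N + 1 := by
  rw [lim_tips, ← Nat.card_coe_set_eq, Nat.card_range_of_injective, Nat.card_eq_fintype_card,
    Fintype.card_fin]
  intro i i' h
  have h1 := (qq_onLeg_iff (⟨((i', ∞), ⊤), le_rfl⟩ : KK N) top_ne_bot (i, ∞)).1 (by
    have h2 : (pp (i, ∞) ⊤ le_rfl : XX N) = pp (i', ∞) ⊤ le_rfl := h
    show OnLeg ((i, ∞) : Leg N) (pp (i', ∞) ⊤ le_rfl : XX N)
    rw [← h2]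
    exact qq_onLeg _)
  exact congrArg Prod.fst h1

theorem not_homeo {M N : ℕ} (h : M ≠ N) : IsEmpty (XX M ≃ₜ XX N) := by
  constructor
  intro f
  apply h
  have h1 : f '' {z : XX M | ptType z = 3} = {z : XX N | ptType z = 3} := by
    ext y
    constructor
    · rintro ⟨x, hx, rfl⟩
      show ptType (f x) = 3
      rw [ptType_map]
      exact hx
    · intro hy
      refine ⟨f.symm y, ?_, f.apply_symm_apply y⟩
      show ptType (f.symm y) = 3
      rw [ptType_map]
      exact hy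
  have h2 : (f '' {z : XX M | ptType z = 3}).ncard = {z : XX M | ptType z = 3}.ncard :=
    Set.ncard_image_of_injective _ f.injective
  rw [h1, ncard_tips, ncard_tips] at h2
  omega

end Pool.Agent.MP2a55c9
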